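import Pool.Agent.Helper37.Kp.Main

set_option autoImplicit false
set_option linter.unusedSectionVars false

/-!
Combinatorial lemmas: independent subsets and summation over a decomposition.
-/

open MeasureTheory Set Filter Topology ENNReal NNReal Metric

namespace Pool.Agent.Helper30.Lo

open Pool.Agent.K3h46.TMC

theorem bern {S t K θ B : ℝ} (ht : 0 < t) (htS : t ≤ S) (hK : S ≤ K * t) (hθ : 0 < θ)
    (hθ1 : θ < 1) (hB : 0 ≤ B) :
    B * t ^ θ + B / θ * K ^ (1 - θ) * (S - t) ^ θ ≤ B / θ * K ^ (1 - θ) * S ^ θ := by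
  have hS : 0 < S := ht.trans_le htS
  have hK0 : 0 < K := by
    by_contra h
    push Not at h
    nlinarith
  have h1 : (S - t) ^ θ ≤ S ^ θ * (1 - θ * (t / S)) := by
    have e1 : S - t = S * (1 + -(t / S)) := by field_simp; ring
    have h2 : -1 ≤ -(t / S) := by
      have : t / S ≤ 1 := by rw [div_le_one hS]; exact htS
      linarith
    have h3 := rpow_one_add_le_one_add_mul_self h2 hθ.le hθ1.le
    rw [e1, Real.mul_rpow hS.le (by linarith)]
    have h4 : 0 ≤ S ^ θ := by positivity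
    calc S ^ θ * (1 + -(t / S)) ^ θ ≤ S ^ θ * (1 + θ * -(t / S)) := by gcongr
      _ = _ := by ring
  have h2 : t ^ θ ≤ K ^ (1 - θ) * S ^ θ * (t / S) := by
    have h3 : S ^ (1 - θ) ≤ K ^ (1 - θ) * t ^ (1 - θ) := by
      rw [← Real.mul_rpow hK0.le ht.le]
      exact Real.rpow_le_rpow hS.le hK (by linarith)
    have e1 : t ^ θ * t ^ (1 - θ) = t := by
      rw [← Real.rpow_add ht]; simp
    have e2 : S ^ θ * S ^ (1 - θ) = S := by
      rw [← Real.rpow_add hS]; simp
    have h4 : 0 < t ^ θ := by positivity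
    have h5 : 0 < S ^ θ := by positivity
    have h6 : 0 < t ^ (1 - θ) := by positivity
    have h7 : 0 < S ^ (1 - θ) := by positivity
    rw [mul_div_assoc', le_div_iff₀ hS]
    calc t ^ θ * S = t ^ θ * S ^ θ * S ^ (1 - θ) := by rw [mul_assoc, e2]
      _ ≤ t ^ θ * S ^ θ * (K ^ (1 - θ) * t ^ (1 - θ)) := by gcongr
      _ = K ^ (1 - θ) * S ^ θ * (t ^ θ * t ^ (1 - θ)) := by ring
      _ = _ := by rw [e1]
  have h3 : 0 ≤ B / θ * K ^ (1 - θ) := by positivity
  have h4 := mul_le_mul_of_nonneg_left h1 h3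
  have h5 := mul_le_mul_of_nonneg_left h2 hB
  have e1 : B / θ * K ^ (1 - θ) * (S ^ θ * (1 - θ * (t / S)))
      = B / θ * K ^ (1 - θ) * S ^ θ - B * (K ^ (1 - θ) * S ^ θ * (t / S)) := by
    field_simp
  linarith

/-- Iteration: if every nonempty set has a subset of proportion `1 / K` on which `Φ` is at most
`B (card) ^ θ`, then `Φ` is at most `(B / θ) K ^ (1 - θ) (card) ^ θ`. -/
theorem iter {ι : Type} [DecidableEq ι] {θ : ℝ} (hθ : 0 < θ) (hθ1 : θ < 1) {B K : ℝ} (hB : 0 ≤ B)
    (Φ : Finset ι → ℝ≥0∞) (h0 : Φ ∅ = 0)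
    (hadd : ∀ s t : Finset ι, Disjoint s t → Φ (s ∪ t) ≤ Φ s + Φ t)
    (hsub : ∀ s : Finset ι, s.Nonempty → ∃ t ⊆ s, t.Nonempty ∧ (s.card : ℝ) ≤ K * t.card ∧
      Φ t ≤ ENNReal.ofReal (B * (t.card : ℝ) ^ θ)) (s : Finset ι) :
    Φ s ≤ ENNReal.ofReal (B / θ * K ^ (1 - θ) * (s.card : ℝ) ^ θ) := by
  induction s using Finset.strongInduction with
  | H s ih =>
    rcases s.eq_empty_or_nonempty with rfl | hs
    · rw [h0]
      exact zero_le
    obtain ⟨t, hts, ht, hK, hΦ⟩ := hsub s hs
    have h1 : s = t ∪ (s \ t) := (Finset.union_sdiff_of_subset hts).symm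
    have h2 := hadd t (s \ t) Finset.disjoint_sdiff
    rw [← h1] at h2
    have hss : s \ t ⊂ s := Finset.sdiff_ssubset hts ht
    have h3 := ih (s \ t) hss
    have htc : (0:ℝ) < t.card := by exact_mod_cast ht.card_pos
    have htS : (t.card : ℝ) ≤ s.card := by exact_mod_cast Finset.card_le_card hts
    have e1 : ((s \ t).card : ℝ) = s.card - t.card := by
      rw [Finset.card_sdiff_of_subset hts, Nat.cast_sub (Finset.card_le_card hts)]
    rw [e1] at h3
    have hK0 : 0 < K := by
      by_contra h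
      push Not at h
      nlinarith
    calc Φ s ≤ ENNReal.ofReal (B * (t.card : ℝ) ^ θ)
          + ENNReal.ofReal (B / θ * K ^ (1 - θ) * ((s.card : ℝ) - t.card) ^ θ) :=
          h2.trans (add_le_add hΦ h3)
      _ = ENNReal.ofReal (B * (t.card : ℝ) ^ θ
          + B / θ * K ^ (1 - θ) * ((s.card : ℝ) - t.card) ^ θ) := by
          have g1 : 0 ≤ (s.card : ℝ) - t.card := by linarith
          have g2 : 0 ≤ B * (t.card : ℝ) ^ θ := mul_nonneg hB (Real.rpow_nonneg htc.le _)
          have g3 : 0 ≤ B / θ * K ^ (1 - θ) * ((s.card : ℝ) - t.card) ^ θ :=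
            mul_nonneg (mul_nonneg (div_nonneg hB hθ.le) (Real.rpow_nonneg hK0.le _))
              (Real.rpow_nonneg g1 _)
          exact (ENNReal.ofReal_add g2 g3).symm
      _ ≤ _ := ENNReal.ofReal_le_ofReal (bern htc htS hK hθ hθ1 hB)

/-- A set with few conflicts has a large independent subset. -/
theorem indep {ι : Type} [DecidableEq ι] (s : Finset ι) (hs : s.Nonempty) (r : ι → ι → Prop)
    [DecidableRel r] (hr : ∀ i j, r i j → r j i) {D : ℝ} (hD : 0 ≤ D)
    (hE : ∑ i ∈ s, ((s.filter (fun j => j ≠ i ∧ r i j)).card : ℝ) ≤ D * s.card) :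
    ∃ t ⊆ s, t.Nonempty ∧ (s.card : ℝ) ≤ (4 * D + 6) * t.card ∧
      ∀ i ∈ t, ∀ j ∈ t, i ≠ j → ¬ r i j := by
  set L : Finset ι := s.filter
    (fun i => ((s.filter (fun j => j ≠ i ∧ r i j)).card : ℝ) < 2 * (D + 1)) with hL
  have hLs : L ⊆ s := Finset.filter_subset _ _
  have hsc : (0:ℝ) < s.card := by exact_mod_cast hs.card_pos
  have h1 : 2 * (D + 1) * ((s \ L).card : ℝ) ≤ D * s.card := by
    refine le_trans ?_ hE
    calc 2 * (D + 1) * ((s \ L).card : ℝ) = ∑ i ∈ s \ L, 2 * (D + 1) := by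
          rw [Finset.sum_const, nsmul_eq_mul]; ring
      _ ≤ ∑ i ∈ s \ L, ((s.filter (fun j => j ≠ i ∧ r i j)).card : ℝ) := by
          apply Finset.sum_le_sum
          intro i hi
          rw [Finset.mem_sdiff] at hi
          by_contra h
          push Not at h
          exact hi.2 (Finset.mem_filter.2 ⟨hi.1, h⟩)
      _ ≤ _ := Finset.sum_le_sum_of_subset_of_nonneg Finset.sdiff_subset
          (fun _ _ _ => Nat.cast_nonneg _)
  have e1 : ((s \ L).card : ℝ) = s.card - L.card := by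
    rw [Finset.card_sdiff_of_subset hLs, Nat.cast_sub (Finset.card_le_card hLs)]
  have h2 : (s.card : ℝ) ≤ 2 * L.card := by
    rw [e1] at h1
    nlinarith
  -- colouring
  set K : ℕ := ⌊2 * (D + 1)⌋₊ + 1 with hK
  have hK1 : 2 * (D + 1) < K := by
    rw [hK]
    push_cast
    exact Nat.lt_floor_add_one _
  have hK2 : (K : ℝ) ≤ 2 * D + 3 := by
    rw [hK]
    push_cast
    have := Nat.floor_le (show 0 ≤ 2 * (D + 1) by linarith)
    linarith
  obtain ⟨c, hc⟩ := greedy_colour (ι := {i // i ∈ L}) (fun i j => r i j)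
    (fun i j h => hr _ _ h) K (Nat.succ_pos _) (by
      rintro ⟨i, hi⟩
      have h3 := (Finset.mem_filter.1 hi).2
      have h4 : (Finset.univ.filter (fun j : {i // i ∈ L} => j ≠ ⟨i, hi⟩ ∧ r i j)).card
          ≤ (s.filter (fun j => j ≠ i ∧ r i j)).card := by
        apply Finset.card_le_card_of_injOn (fun j : {i // i ∈ L} => (j : ι))
        · rintro ⟨j, hj⟩ hj2
          have hj3 := (Finset.mem_filter.1 (Finset.mem_coe.1 hj2)).2
          apply Finset.mem_coe.2
          exact Finset.mem_filter.2 ⟨hLs hj, fun h => hj3.1 (Subtype.ext h), hj3.2⟩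
        · intro a _ b _ hab
          exact Subtype.ext hab
      have h5 : ((Finset.univ.filter (fun j : {i // i ∈ L} => j ≠ ⟨i, hi⟩ ∧ r i j)).card : ℝ) < K :=
        lt_of_le_of_lt (Nat.cast_le.2 h4) (h3.trans hK1)
      exact_mod_cast h5)
  -- a large class
  obtain ⟨a, ha⟩ : ∃ a : Fin K, (L.card : ℝ) ≤
      K * ((Finset.univ.filter (fun i : {i // i ∈ L} => c i = a)).card : ℝ) := by
    by_contra h
    push Not at h
    have h3 : ∑ a : Fin K, (K * ((Finset.univ.filter (fun i : {i // i ∈ L} => c i = a)).card : ℝ))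
        < ∑ a : Fin K, (L.card : ℝ) := by
      apply Finset.sum_lt_sum_of_nonempty ⟨⟨0, Nat.succ_pos _⟩, Finset.mem_univ _⟩
      intro a _
      exact h a
    rw [← Finset.mul_sum, ← Nat.cast_sum, Finset.sum_const, Finset.card_univ, Fintype.card_fin,
      nsmul_eq_mul] at h3
    have h4 : ∑ a : Fin K, (Finset.univ.filter (fun i : {i // i ∈ L} => c i = a)).card
        = L.card := by
      rw [← Finset.card_eq_sum_card_fiberwise (fun _ _ => Finset.mem_coe.2 (Finset.mem_univ _)),
        Finset.card_univ, Fintype.card_coe]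
    rw [h4] at h3
    exact lt_irrefl _ h3
  set t : Finset ι := (Finset.univ.filter (fun i : {i // i ∈ L} => c i = a)).map
    (Function.Embedding.subtype _) with ht
  have htL : t ⊆ L := by
    intro i hi
    obtain ⟨j, -, rfl⟩ := Finset.mem_map.1 hi
    exact j.2
  have htc : (t.card : ℝ) = ((Finset.univ.filter (fun i : {i // i ∈ L} => c i = a)).card : ℝ) := by
    rw [ht, Finset.card_map]
  rw [← htc] at ha
  have hfin : (s.card : ℝ) ≤ (4 * D + 6) * t.card := by
    have h3 : (0:ℝ) ≤ t.card := Nat.cast_nonneg _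
    calc (s.card : ℝ) ≤ 2 * (K * t.card) := by linarith
      _ ≤ 2 * ((2 * D + 3) * t.card) := by gcongr
      _ = _ := by ring
  refine ⟨t, htL.trans hLs, ?_, hfin, ?_⟩
  · rw [← Finset.card_pos]
    have h3 : 0 < (t.card : ℝ) := by
      by_contra h
      push Not at h
      have : (4 * D + 6) * (t.card : ℝ) ≤ 0 := mul_nonpos_of_nonneg_of_nonpos (by linarith) h
      linarith
    exact_mod_cast h3
  · intro i hi j hj hij hrij
    obtain ⟨i', hi', rfl⟩ := Finset.mem_map.1 hi
    obtain ⟨j', hj', rfl⟩ := Finset.mem_map.1 hj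
    have h3 := (Finset.mem_filter.1 hi').2
    have h4 := (Finset.mem_filter.1 hj').2
    exact hc i' j' (fun h => hij (by rw [h])) hrij (h3.trans h4.symm)

/-- Sums of reciprocals of numbers with a linear counting function. -/
theorem harm {ι : Type} [DecidableEq ι] {A : ℝ} (f : ι → ℝ) (hf : ∀ i, 0 < f i) :
    ∀ (n : ℕ) (s : Finset ι), s.card = n →
    (∀ y : ℝ, ((s.filter (fun i => f i ≤ y)).card : ℝ) ≤ A * y ∨ y < 0) →
    ∑ i ∈ s, 1 / f i ≤ A * ∑ l ∈ Finset.range n, 1 / ((l : ℝ) + 1) := by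
  intro n
  induction n with
  | zero =>
    intro s hs _
    rw [Finset.card_eq_zero.1 hs]
    simp
  | succ n ih =>
    intro s hs h
    have hne : s.Nonempty := by rw [← Finset.card_pos, hs]; exact Nat.succ_pos _
    obtain ⟨i, hi, hmax⟩ := s.exists_max_image f hne
    have h1 : (s.filter (fun j => f j ≤ f i)) = s :=
      Finset.filter_true_of_mem (fun j hj => hmax j hj)
    have h2 := (h (f i)).resolve_right (not_lt.2 (hf i).le)
    rw [h1, hs] at h2
    push_cast at h2
    have h3 : 1 / f i ≤ A * (1 / ((n : ℝ) + 1)) := by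
      have hn : (0:ℝ) < (n:ℝ) + 1 := by positivity
      rw [mul_one_div, div_le_div_iff₀ (hf i) hn]
      linarith
    have h4 := ih (s.erase i) (by rw [Finset.card_erase_of_mem hi, hs]; rfl) (by
      intro y
      rcases h y with h5 | h5
      · left
        refine le_trans ?_ h5
        have : (s.erase i).filter (fun j => f j ≤ y) ⊆ s.filter (fun j => f j ≤ y) :=
          Finset.filter_subset_filter _ (Finset.erase_subset _ _)
        exact_mod_cast Finset.card_le_card this
      · exact Or.inr h5)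
    rw [← Finset.add_sum_erase _ _ hi, Finset.sum_range_succ, mul_add]
    linarith

theorem sum_inv_le_log (n : ℕ) :
    ∑ l ∈ Finset.range n, 1 / ((l : ℝ) + 1) ≤ 1 + Real.log n := by
  rcases Nat.eq_zero_or_pos n with h | h
  · subst h; simp
  have h1 := harmonic_le_one_add_log n
  have h2 : ((harmonic n : ℚ) : ℝ) = ∑ l ∈ Finset.range n, 1 / ((l : ℝ) + 1) := by
    rw [harmonic]
    push_cast
    exact Finset.sum_congr rfl (fun i _ => by rw [one_div])
  rw [← h2]
  exact h1

end Pool.Agent.Helper30.Lo
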