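import Pool.Agent.Helper30.Lo.Final

set_option autoImplicit false
set_option linter.unusedSectionVars false

/-!
The estimates with small losses, and the converse.
-/

open MeasureTheory Set Filter Topology ENNReal NNReal Metric

namespace Pool.Agent.Helper30.Lo

open Pool.Agent.H742R2.Kk Pool.Agent.W767.Kc Pool.Agent.K3h46.TMC Pool.Agent.Helper37.Kp

theorem exists_TT (k m : ℕ) : Nonempty (WithLp 2 (E (k + 1) × E m) ≃ₗᵢ[ℝ] E (k + m + 1)) := by
  have h : Module.finrank ℝ (WithLp 2 (E (k + 1) × E m)) = k + m + 1 := by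
    rw [(WithLp.linearEquiv 2 ℝ (E (k + 1) × E m)).finrank_eq, Module.finrank_prod,
      finrank_euclideanSpace_fin, finrank_euclideanSpace_fin]
    omega
  exact ⟨((stdOrthonormalBasis ℝ (WithLp 2 (E (k + 1) × E m))).reindex (finCongr h)).repr⟩

/-- The inequality for orientations of dimension at most `k`, with the exponents of dimension
`k + 1` and small losses. -/
def SL (k m : ℕ) (q : ℝ) : Prop :=
  ∀ ε : ℝ, 0 < ε → ∀ A : ℝ, 0 ≤ A → ∃ C : ℝ, 0 < C ∧ ∀ δ : ℝ, 0 < δ → δ < 1 →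
    ∀ (ι : Type) [Fintype ι] [Nonempty ι]
    (e a : ι → E (k + m + 1)), (∀ i, ‖e i‖ = 1) → (∀ i j, i ≠ j → δ ≤ ‖e i - e j‖) →
    DimLE k A δ e →
    (∫⁻ y, Fs δ (Icc (-(1 / 2)) (1 / 2)) e a y ^ q) ^ (1 / q) ≤
      ENNReal.ofReal (C * δ ^ (-ε) * δ ^ (((k + m : ℕ) : ℝ) / q) *
        (Fintype.card ι : ℝ) ^ (1 - 1 / (q * k)))

theorem loss_le {k m : ℕ} (hk : 1 ≤ k) {q : ℝ} (hq : 1 < q) (h : ∀ ε : ℝ, 0 < ε → LW k q ε) :
    SL k m q := by
  intro ε hε A hA
  have hk0 : (0:ℝ) < k := by exact_mod_cast hk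
  have hd0 : (0:ℝ) < ((k + m : ℕ) : ℝ) := by push_cast; positivity
  set d : ℝ := ((k + m : ℕ) : ℝ) with hd
  have hq0 : 0 < q := by linarith
  set γ : ℝ := ε * q * k / (2 * d) with hγ
  have hγ0 : 0 < γ := by positivity
  obtain ⟨C, hC, h1⟩ := all_families (m := m) hk hq (ε := q * (ε / 2)) (by positivity)
    (h (q * (ε / 2)) (by positivity))
  obtain ⟨C1, hC1, hpack⟩ := cap_packing (k + m)
  set C2 : ℝ := C1 * 3 ^ (k + m) with hC2
  have hC20 : 0 < C2 := by positivity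
  set u : ℝ := 1 / (q * k) with hu
  have hu0 : 0 < u := by positivity
  refine ⟨C * ((1 + A) * (1 + 1 / γ)) ^ u * C2 ^ (γ * u), by positivity, ?_⟩
  intro δ hδ hδ1 ι _ _ e a he hsep hdim
  classical
  have hN0 : (0:ℝ) < Fintype.card ι := Nat.cast_pos.2 Fintype.card_pos
  have hN1 : (1:ℝ) ≤ Fintype.card ι := by exact_mod_cast Fintype.card_pos
  have h2 := h1 δ hδ hδ1 ι e a he (fun i j hij h0 => by
    have := hsep i j hij
    rw [h0, sub_self, norm_zero] at this
    linarith) (A * (1 + Real.log (Fintype.card ι)))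
    (mul_nonneg hA (by linarith [Real.log_nonneg hN1]))
    (pot_le hk hA hδ hsep hdim)
  set N : ℝ := (Fintype.card ι : ℝ) with hN
  have hNle : N ≤ C2 * δ ^ (-d) := by
    obtain ⟨i0⟩ := ‹Nonempty ι›
    have h3 := hpack δ 2 hδ hδ1.le (by norm_num) ι Finset.univ e (e i0) (he i0)
      (fun i _ => he i) (fun i _ j _ hij => hsep i j hij) (fun i _ => by
        refine (norm_sub_le _ _).trans ?_
        rw [he i, he i0]; norm_num)
    rw [Finset.card_univ] at h3
    refine h3.trans ?_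
    rw [hC2, mul_assoc, Real.rpow_neg hδ.le, hd, Real.rpow_natCast, ← div_eq_mul_inv, ← div_pow]
    gcongr
    linarith
  refine h2.trans ?_
  apply ENNReal.ofReal_le_ofReal
  have h3 : (1 + A * (1 + Real.log N)) ^ u ≤
      ((1 + A) * (1 + 1 / γ)) ^ u * (C2 ^ (γ * u) * δ ^ (-(ε / 2))) := by
    calc (1 + A * (1 + Real.log N)) ^ u ≤ ((1 + A) * (1 + 1 / γ) * N ^ γ) ^ u := by
          apply Real.rpow_le_rpow _ (log_le hN1 hγ0 hA) hu0.le
          have := Real.log_nonneg hN1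
          positivity
      _ = ((1 + A) * (1 + 1 / γ)) ^ u * N ^ (γ * u) := by
          rw [Real.mul_rpow (by positivity) (by positivity), ← Real.rpow_mul hN0.le]
      _ ≤ ((1 + A) * (1 + 1 / γ)) ^ u * (C2 * δ ^ (-d)) ^ (γ * u) := by gcongr
      _ = _ := by
          rw [Real.mul_rpow hC20.le (by positivity), ← Real.rpow_mul hδ.le]
          congr 3
          rw [hγ, hu]
          field_simp
  have e1 : (δ ^ (-(q * (ε / 2))) * δ ^ (k + m)) ^ (1 / q) = δ ^ (-(ε / 2)) * δ ^ (d / q) := by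
    rw [Real.mul_rpow (by positivity) (by positivity), ← Real.rpow_mul hδ.le,
      ← Real.rpow_natCast δ (k + m), ← Real.rpow_mul hδ.le]
    congr 2
    · field_simp
    · rw [← hd]; ring
  have e2 : δ ^ (-ε) = δ ^ (-(ε / 2)) * δ ^ (-(ε / 2)) := by
    rw [← Real.rpow_add hδ]
    congr 1
    ring
  rw [e1]
  calc C * (δ ^ (-(ε / 2)) * δ ^ (d / q)) * (1 + A * (1 + Real.log N)) ^ u * N ^ (1 - u)
      ≤ C * (δ ^ (-(ε / 2)) * δ ^ (d / q)) *
        (((1 + A) * (1 + 1 / γ)) ^ u * (C2 ^ (γ * u) * δ ^ (-(ε / 2)))) * N ^ (1 - u) := by gcongr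
    _ = _ := by
        rw [e2]
        ring

/-- The converse: orientations in a great sphere. -/
theorem lw_of_sl {k m : ℕ} (hk : 1 ≤ k) {q : ℝ} (hq : 1 < q) (h : SL k m q) (ε : ℝ) (hε : 0 < ε) :
    LW k q ε := by
  have hq0 : 0 < q := by linarith
  obtain ⟨C1, hC1, hpack⟩ := cap_packing k
  obtain ⟨C, hC, h⟩ := h (ε / q) (by positivity) (C1 * 2 ^ k) (by positivity)
  obtain ⟨T⟩ := exists_TT k m
  set V : ℝ≥0∞ := volume (ball (0 : E m) 1) with hV
  have hVt : V ≠ ⊤ := measure_ball_lt_top.ne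
  have hV0 : V ≠ 0 := (measure_ball_pos volume 0 one_pos).ne'
  have hVr : 0 < V.toReal := ENNReal.toReal_pos hV0 hVt
  refine ⟨C ^ q * 2 ^ m / V.toReal, by positivity, ?_⟩
  intro δ hδ hδ1 ι _ e a he hsep
  rcases isEmpty_or_nonempty ι with hι | hι
  · simp only [Fs_empty, ENNReal.zero_rpow_of_pos hq0, lintegral_zero]
    exact zero_le
  have hN0 : (0:ℝ) < Fintype.card ι := Nat.cast_pos.2 Fintype.card_pos
  set N : ℝ := (Fintype.card ι : ℝ) with hN
  set e' : ι → E (k + m + 1) := fun i => T (WithLp.toLp 2 (e i, (0 : E m))) with he'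
  set a' : ι → E (k + m + 1) := fun i => T (WithLp.toLp 2 (a i, (0 : E m))) with ha'
  have he'1 : ∀ i, ‖e' i‖ = 1 := by
    intro i
    rw [he']
    simp only
    rw [LinearIsometryEquiv.norm_map, norm_zero_right, he i]
  have hdist : ∀ i j, ‖e' i - e' j‖ = ‖e i - e j‖ := by
    intro i j
    rw [he']
    simp only
    rw [← map_sub, LinearIsometryEquiv.norm_map]
    have g4 : (WithLp.toLp 2 (e i, (0:E m)) - WithLp.toLp 2 (e j, (0:E m)) :
        WithLp 2 (E (k + 1) × E m)) = WithLp.toLp 2 (e i - e j, (0:E m) - 0) := rfl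
    rw [g4, sub_self, norm_zero_right]
  have h1 := h δ hδ hδ1 ι e' a' he'1 (fun i j hij => by rw [hdist]; exact hsep i j hij) (by
    classical
    intro i ρ hρ
    have h2 := hpack δ ρ hδ hδ1.le (hδ.le.trans hρ) ι
      (Finset.univ.filter (fun j => ‖e' j - e' i‖ ≤ ρ)) e (e i) (he i) (fun j _ => he j)
      (fun j _ l _ hjl => hsep j l hjl) (fun j hj => by
        have := (Finset.mem_filter.1 hj).2
        rwa [hdist] at this)
    rw [Nat.card_eq_fintype_card, Fintype.card_subtype]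
    refine h2.trans ?_
    rw [mul_assoc, ← mul_pow]
    have hρ0 : 0 < ρ := hδ.trans_le hρ
    have h5 : (δ + ρ) / δ ≤ 2 * (ρ / δ) := by
      rw [mul_div_assoc']
      gcongr
      linarith
    have h6 : 0 ≤ (δ + ρ) / δ := by positivity
    gcongr)
  -- the lower bound for the integral
  have hFm : Measurable (fun z => Fs δ (Icc (-(1 / 2)) (1 / 2)) e' a' z ^ q) :=
    (measurable_Fs _ measurableSet_Icc _ _).pow_const _
  have hpt : ∀ (w : E m), w ∈ closedBall (0 : E m) (δ / 2) → ∀ z : E (k + 1),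
      Fs (δ / 2) (Icc (-(1 / 2)) (1 / 2)) e a z
        ≤ Fs δ (Icc (-(1 / 2)) (1 / 2)) e' a' (T (WithLp.toLp 2 (z, w))) := by
    intro w hw z
    unfold Fs
    apply Finset.sum_le_sum
    intro i _
    by_cases hmem : z ∈ cyl (δ / 2) (Icc (-(1 / 2)) (1 / 2)) (e i) (a i)
    swap
    · rw [indicator_of_notMem hmem]
      exact zero_le
    rw [indicator_of_mem hmem, indicator_of_mem]
    obtain ⟨h2, h3⟩ := hmem
    have e1 : T (WithLp.toLp 2 (z, w)) - a' i = T (WithLp.toLp 2 (z - a i, w)) := by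
      rw [ha']
      simp only
      rw [← map_sub]
      have g4 : (WithLp.toLp 2 (z, w) - WithLp.toLp 2 (a i, (0:E m)) :
        WithLp 2 (E (k + 1) × E m)) = WithLp.toLp 2 (z - a i, w - 0) := rfl
      rw [g4, sub_zero]
    have e2 : (inner ℝ (T (WithLp.toLp 2 (z, w)) - a' i) (e' i) : ℝ) = inner ℝ (z - a i) (e i) := by
      rw [e1, he']
      simp only
      rw [LinearIsometryEquiv.inner_map_map, WithLp.prod_inner_apply]
      simp
    refine ⟨by rw [e2]; exact h2, ?_⟩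
    rw [e2, e1, he']
    simp only
    rw [← map_smul, ← map_sub, LinearIsometryEquiv.norm_map]
    have g4 : (WithLp.toLp 2 (z - a i, w) - (inner ℝ (z - a i) (e i) : ℝ) •
        WithLp.toLp 2 (e i, (0:E m)) : WithLp 2 (E (k + 1) × E m))
        = WithLp.toLp 2 (z - a i - (inner ℝ (z - a i) (e i) : ℝ) • e i,
          w - (inner ℝ (z - a i) (e i) : ℝ) • (0 : E m)) := rfl
    rw [g4, smul_zero, sub_zero]
    refine (le_add _ _).trans ?_
    rw [mem_closedBall, dist_zero_right] at hw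
    linarith
  have h2 : ENNReal.ofReal ((δ / 2) ^ m) * V * ∫⁻ z, Fs (δ / 2) (Icc (-(1 / 2)) (1 / 2)) e a z ^ q
      ≤ ∫⁻ z, Fs δ (Icc (-(1 / 2)) (1 / 2)) e' a' z ^ q := by
    rw [lintegral_dec T hFm]
    calc ENNReal.ofReal ((δ / 2) ^ m) * V * ∫⁻ z, Fs (δ / 2) (Icc (-(1 / 2)) (1 / 2)) e a z ^ q
        = ∫⁻ w in closedBall (0 : E m) (δ / 2),
            ∫⁻ z, Fs (δ / 2) (Icc (-(1 / 2)) (1 / 2)) e a z ^ q := by
          rw [setLIntegral_const, Measure.addHaar_closedBall _ _ (by positivity),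
            finrank_euclideanSpace_fin, mul_comm]
      _ ≤ ∫⁻ w in closedBall (0 : E m) (δ / 2),
            ∫⁻ z, Fs δ (Icc (-(1 / 2)) (1 / 2)) e' a' (T (WithLp.toLp 2 (z, w))) ^ q := by
          apply setLIntegral_mono' measurableSet_closedBall
          intro w hw
          apply lintegral_mono
          intro z
          exact ENNReal.rpow_le_rpow (hpt w hw z) hq0.le
      _ ≤ _ := setLIntegral_le_lintegral _ _
  have h3 := ENNReal.rpow_le_rpow h1 hq0.le
  rw [← ENNReal.rpow_mul, one_div_mul_cancel hq0.ne', ENNReal.rpow_one,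
    ENNReal.ofReal_rpow_of_nonneg (by positivity) hq0.le] at h3
  set X : ℝ≥0∞ := ∫⁻ z, Fs (δ / 2) (Icc (-(1 / 2)) (1 / 2)) e a z ^ q with hX
  set R : ℝ := (C * δ ^ (-(ε / q)) * δ ^ (((k + m : ℕ) : ℝ) / q) *
        (Fintype.card ι : ℝ) ^ (1 - 1 / (q * k))) ^ q with hR
  have h4 : ENNReal.ofReal ((δ / 2) ^ m) * V * X ≤ ENNReal.ofReal R := h2.trans h3
  have e3 : V = ENNReal.ofReal V.toReal := (ENNReal.ofReal_toReal hVt).symm
  rw [e3, ← ENNReal.ofReal_mul (by positivity)] at h4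
  have h5 : X ≤ ENNReal.ofReal (((δ / 2) ^ m * V.toReal)⁻¹ * R) := by
    have hpos : 0 < (δ / 2) ^ m * V.toReal := by positivity
    calc X = ENNReal.ofReal (((δ / 2) ^ m * V.toReal)⁻¹) *
          (ENNReal.ofReal ((δ / 2) ^ m * V.toReal) * X) := by
          rw [← mul_assoc, ← ENNReal.ofReal_mul (by positivity), inv_mul_cancel₀ hpos.ne',
            ENNReal.ofReal_one, one_mul]
      _ ≤ ENNReal.ofReal (((δ / 2) ^ m * V.toReal)⁻¹) * ENNReal.ofReal R := by gcongr
      _ = _ := by rw [← ENNReal.ofReal_mul (by positivity)]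
  refine h5.trans ?_
  apply ENNReal.ofReal_le_ofReal
  apply le_of_eq
  have hk0 : (0:ℝ) < k := by exact_mod_cast hk
  have e4 : R = C ^ q * δ ^ (-ε) * δ ^ (k + m) * N ^ (q - 1 / (k:ℝ)) := by
    rw [hR, Real.mul_rpow (by positivity) (by positivity),
      Real.mul_rpow (by positivity) (by positivity),
      Real.mul_rpow (by positivity) (by positivity), ← Real.rpow_mul hδ.le,
      ← Real.rpow_mul hδ.le, ← Real.rpow_mul hN0.le, div_mul_cancel₀ _ hq0.ne',
      Real.rpow_natCast]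
    have g1 : -(ε / q) * q = -ε := by field_simp
    have g2 : (1 - 1 / (q * (k:ℝ))) * q = q - 1 / k := by field_simp
    rw [g1, g2]
  rw [e4, div_pow, pow_add]
  field_simp

end Pool.Agent.Helper30.Lo
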