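import Pool.Agent.Helper30.Lo.Model

set_option autoImplicit false
set_option linter.unusedSectionVars false

/-!
Integration over the fibres of a shear.
-/

open MeasureTheory Set Filter Topology ENNReal NNReal Metric

namespace Pool.Agent.Helper30.Lo

open Pool.Agent.H742R2.Kk Pool.Agent.W767.Kc Pool.Agent.K3h46.TMC Pool.Agent.Helper37.Kp

theorem exists_T1 (n : ℕ) (u0 : E (n + 1)) (hu0 : ‖u0‖ = 1) :
    ∃ T : WithLp 2 (E n × ℝ) ≃ₗᵢ[ℝ] E (n + 1), T (WithLp.toLp 2 (0, 1)) = u0 := by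
  obtain ⟨T2⟩ := exists_T2 n
  refine ⟨T2.trans (Submodule.reflection (ℝ ∙ (T2 (WithLp.toLp 2 (0, 1)) - u0))ᗮ), ?_⟩
  rw [LinearIsometryEquiv.trans_apply]
  apply Submodule.reflection_sub
  rw [LinearIsometryEquiv.norm_map, hu0]
  rw [← sq_eq_sq₀ (norm_nonneg _) (by norm_num), WithLp.prod_norm_sq_eq_of_L2]
  simp

theorem exists_T3 (k m : ℕ) : Nonempty (WithLp 2 (E k × E m) ≃ₗᵢ[ℝ] E (k + m)) := by
  have h : Module.finrank ℝ (WithLp 2 (E k × E m)) = k + m := by
    rw [(WithLp.linearEquiv 2 ℝ (E k × E m)).finrank_eq, Module.finrank_prod,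
      finrank_euclideanSpace_fin, finrank_euclideanSpace_fin]
  exact ⟨((stdOrthonormalBasis ℝ (WithLp 2 (E k × E m))).reindex (finCongr h)).repr⟩

section norms

variable {X Y : Type} [NormedAddCommGroup X] [InnerProductSpace ℝ X]
    [NormedAddCommGroup Y] [InnerProductSpace ℝ Y]

theorem nsq (x : X) (y : Y) :
    ‖(WithLp.toLp 2 (x, y) : WithLp 2 (X × Y))‖ ^ 2 = ‖x‖ ^ 2 + ‖y‖ ^ 2 :=
  WithLp.prod_norm_sq_eq_of_L2 _

theorem fst_le (x : X) (y : Y) :
    ‖x‖ ≤ ‖(WithLp.toLp 2 (x, y) : WithLp 2 (X × Y))‖ := by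
  apply le_of_sq_le_sq _ (norm_nonneg _)
  rw [nsq]
  nlinarith [sq_nonneg ‖y‖]

theorem le_add (x : X) (y : Y) :
    ‖(WithLp.toLp 2 (x, y) : WithLp 2 (X × Y))‖ ≤ ‖x‖ + ‖y‖ := by
  apply le_of_sq_le_sq _ (by positivity)
  rw [nsq]
  nlinarith [norm_nonneg x, norm_nonneg y]

theorem norm_zero_right (x : X) :
    ‖(WithLp.toLp 2 (x, (0:Y)) : WithLp 2 (X × Y))‖ = ‖x‖ := by
  rw [← sq_eq_sq₀ (norm_nonneg _) (norm_nonneg _), nsq, norm_zero]
  ring

end norms

theorem smul_aux {V : Type} [AddCommGroup V] [Module ℝ V] (p v : V) (l s : ℝ) :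
    p - l • v = (p - s • v) - (l - s) • v := by
  rw [sub_smul]; abel

/-- Slopes and directions. -/
theorem slope_sep {k : ℕ} (T2 : WithLp 2 (E k × ℝ) ≃ₗᵢ[ℝ] E (k + 1)) {R : ℝ} (hR : 0 ≤ R)
    {u v : E k} (hu : ‖u‖ ≤ R) (hv : ‖v‖ ≤ R) (g g' : E (k + 1))
    (hg : g = ‖T2 (WithLp.toLp 2 (u, (1:ℝ)))‖⁻¹ • T2 (WithLp.toLp 2 (u, (1:ℝ))))
    (hg' : g' = ‖T2 (WithLp.toLp 2 (v, (1:ℝ)))‖⁻¹ • T2 (WithLp.toLp 2 (v, (1:ℝ)))) :
    ‖u - v‖ ≤ 2 * (1 + R) ^ 2 * ‖g - g'‖ := by
  have key : ∀ w : E k, ‖w‖ ≤ R → 1 ≤ ‖T2 (WithLp.toLp 2 (w, (1:ℝ)))‖ ∧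
      ‖T2 (WithLp.toLp 2 (w, (1:ℝ)))‖ ≤ 1 + R := by
    intro w hw
    rw [LinearIsometryEquiv.norm_map]
    constructor
    · have := snd_le w (1:ℝ)
      rwa [norm_one] at this
    · refine (le_add w (1:ℝ)).trans ?_
      rw [norm_one]
      linarith
  obtain ⟨h1, h2⟩ := key u hu
  obtain ⟨h3, h4⟩ := key v hv
  set a : ℝ := ‖T2 (WithLp.toLp 2 (u, (1:ℝ)))‖ with ha
  set b : ℝ := ‖T2 (WithLp.toLp 2 (v, (1:ℝ)))‖ with hb
  have ha0 : 0 < a := by linarith
  have hb0 : 0 < b := by linarith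
  -- the heights of the unit vectors
  set p : E (k + 1) := T2 (WithLp.toLp 2 (0, (1:ℝ))) with hp
  have hp1 : ‖p‖ = 1 := by
    rw [hp, LinearIsometryEquiv.norm_map, ← sq_eq_sq₀ (norm_nonneg _) (by norm_num), nsq]
    simp
  have hin : ∀ w : E k, (inner ℝ (T2 (WithLp.toLp 2 (w, (1:ℝ)))) p : ℝ) = 1 := by
    intro w
    rw [hp, LinearIsometryEquiv.inner_map_map, WithLp.prod_inner_apply]
    simp
  have e1 : (inner ℝ (g - g') p : ℝ) = a⁻¹ - b⁻¹ := by
    rw [inner_sub_left, hg, hg', inner_smul_left, inner_smul_left, hin, hin]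
    simp
  have h5 : |a⁻¹ - b⁻¹| ≤ ‖g - g'‖ := by
    rw [← e1]
    refine (abs_real_inner_le_norm _ _).trans ?_
    rw [hp1, mul_one]
  have h6 : |a - b| ≤ a * b * ‖g - g'‖ := by
    have e2 : a - b = -(a * b * (a⁻¹ - b⁻¹)) := by field_simp; ring
    rw [e2, abs_neg, abs_mul, abs_of_pos (by positivity)]
    gcongr
  have e3 : T2 (WithLp.toLp 2 (u - v, (0:ℝ))) = a • (g - g') + (a - b) • g' := by
    have g1 : T2 (WithLp.toLp 2 (u, (1:ℝ))) = a • g := by
      rw [hg, smul_smul, mul_inv_cancel₀ ha0.ne', one_smul]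
    have g2 : T2 (WithLp.toLp 2 (v, (1:ℝ))) = b • g' := by
      rw [hg', smul_smul, mul_inv_cancel₀ hb0.ne', one_smul]
    have g3 : (WithLp.toLp 2 (u - v, (0:ℝ)) : WithLp 2 (E k × ℝ))
        = WithLp.toLp 2 (u, (1:ℝ)) - WithLp.toLp 2 (v, (1:ℝ)) := by
      have g4 : (WithLp.toLp 2 (u, (1:ℝ)) - WithLp.toLp 2 (v, (1:ℝ)) : WithLp 2 (E k × ℝ))
        = WithLp.toLp 2 (u - v, (1:ℝ) - 1) := rfl
      rw [g4, sub_self]
    rw [g3, map_sub, g1, g2, smul_sub, sub_smul]
    abel
  have h7 : ‖g'‖ = 1 := by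
    rw [hg', norm_smul, norm_inv, norm_norm, inv_mul_cancel₀ hb0.ne']
  have h8 : ‖u - v‖ = ‖T2 (WithLp.toLp 2 (u - v, (0:ℝ)))‖ := by
    rw [LinearIsometryEquiv.norm_map, norm_zero_right]
  rw [h8, e3]
  refine (norm_add_le _ _).trans ?_
  rw [norm_smul, norm_smul, h7, mul_one, Real.norm_of_nonneg ha0.le, Real.norm_eq_abs]
  have h9 : 0 ≤ ‖g - g'‖ := norm_nonneg _
  have h10 : a * ‖g - g'‖ ≤ (1 + R) ^ 2 * ‖g - g'‖ := by
    gcongr
    nlinarith
  have h11 : a * b * ‖g - g'‖ ≤ (1 + R) ^ 2 * ‖g - g'‖ := by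
    gcongr
    nlinarith
  linarith

/-- The main estimate for one shear. -/
theorem fibre {k m : ℕ} (hk : 1 ≤ k) {q ε : ℝ} (hq : 1 < q) (hε : 0 ≤ ε) (hLL : LW k q ε)
    {κ : ℝ} (hκ : 0 < κ) :
    ∃ C : ℝ, 0 < C ∧ ∀ (T1 : WithLp 2 (E (k + m) × ℝ) ≃ₗᵢ[ℝ] E (k + m + 1))
    (T3 : WithLp 2 (E k × E m) ≃ₗᵢ[ℝ] E (k + m)) (M : Fin k → Fin m → ℝ), M ∈ cube k m →
    ∀ δ : ℝ, 0 < δ → δ < 1 → ∀ (ι : Type) [Fintype ι] [Nonempty ι] (e a : ι → E (k + m + 1))
    (x : ι → E k) (y : ι → E m) (τ : ι → ℝ), (∀ i, κ ≤ τ i) →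
    (∀ i, e i = τ i • T1 (WithLp.toLp 2 (T3 (WithLp.toLp 2 (x i, y i)), (1:ℝ)))) →
    (∀ i, ‖e i‖ = 1) →
    (∀ i j, i ≠ j → δ < ‖(x i + act M (y i)) - (x j + act M (y j))‖) →
    ∫⁻ z, Fs δ (Icc (-(1 / 2)) (1 / 2)) e a z ^ q ≤
      ENNReal.ofReal (C * δ ^ (-ε) * (δ ^ (k + m) * (Fintype.card ι : ℝ) ^ (q - 1 / (k : ℝ)))) := by
  classical
  set A : ℝ := k * m + 1 with hA
  have hA1 : 1 ≤ A := by
    rw [hA]
    have : (0:ℝ) ≤ k * m := by positivity
    linarith
  set K0 : ℝ := 1 + 1 / κ with hK0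
  have hK00 : 0 < K0 := by positivity
  set R0 : ℝ := A / κ with hR0
  have hR00 : 0 ≤ R0 := by positivity
  set K1 : ℝ := K0 * A with hK1
  have hK10 : 0 < K1 := by positivity
  set L : ℝ := K1 + 3 / 2 * (1 + R0) with hL
  have hL0 : 0 < L := by positivity
  set c : ℝ := 1 / (2 * (1 + R0) ^ 2) with hc
  have hc0 : 0 < c := by positivity
  have hc1 : c ≤ 1 := by
    rw [hc, div_le_one (by positivity)]
    nlinarith
  obtain ⟨Cm, hCm, hmodel⟩ := model hk hq hε hLL hK10 hL0 hc0 hc1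
  set V : ℝ≥0∞ := volume (ball (0 : E m) 1) with hV
  have hVt : V ≠ ⊤ := measure_ball_lt_top.ne
  refine ⟨Cm * (K0 ^ m * (V.toReal + 1)), by positivity, ?_⟩
  intro T1 T3 M hM δ hδ hδ1 ι _ _ e a x y τ hτ he hunit hsep
  obtain ⟨T2⟩ := exists_T2 k
  have hq0 : 0 < q := by linarith
  -- heights
  have hτ0 : ∀ i, 0 < τ i := fun i => hκ.trans_le (hτ i)
  have hnorm : ∀ i, ‖(WithLp.toLp 2 (T3 (WithLp.toLp 2 (x i, y i)), (1:ℝ)) :
      WithLp 2 (E (k + m) × ℝ))‖ = 1 / τ i := by
    intro i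
    have h1 := hunit i
    rw [he i, norm_smul, LinearIsometryEquiv.norm_map, Real.norm_of_nonneg (hτ0 i).le] at h1
    rw [eq_div_iff (hτ0 i).ne', mul_comm]
    exact h1
  have hτ1 : ∀ i, τ i ≤ 1 := by
    intro i
    have h1 := snd_le (T3 (WithLp.toLp 2 (x i, y i))) (1:ℝ)
    rw [hnorm i, norm_one, le_div_iff₀ (hτ0 i), one_mul] at h1
    exact h1
  have hz : ∀ i, ‖T3 (WithLp.toLp 2 (x i, y i))‖ ≤ 1 / κ := by
    intro i
    refine (fst_le _ (1:ℝ)).trans ?_
    rw [hnorm i]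
    exact one_div_le_one_div_of_le hκ (hτ i)
  have hx : ∀ i, ‖x i‖ ≤ 1 / κ := by
    intro i
    refine le_trans ?_ (hz i)
    rw [LinearIsometryEquiv.norm_map]
    exact fst_le _ _
  have hy : ∀ i, ‖y i‖ ≤ 1 / κ := by
    intro i
    refine le_trans ?_ (hz i)
    rw [LinearIsometryEquiv.norm_map]
    exact snd_le _ _
  have hact : ∀ w : E m, ‖act M w‖ ≤ (A - 1) * ‖w‖ := by
    intro w
    have := norm_act_le hM w
    rw [hA]
    linarith
  set U : ι → E k := fun i => x i + act M (y i) with hU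
  have hUR : ∀ i, ‖U i‖ ≤ R0 := by
    intro i
    refine (norm_add_le _ _).trans ?_
    have h1 := hact (y i)
    have h2 : (A - 1) * ‖y i‖ ≤ (A - 1) * (1 / κ) :=
      mul_le_mul_of_nonneg_left (hy i) (by linarith)
    have h3 := hx i
    rw [hR0]
    have e1 : A / κ = 1 / κ + (A - 1) * (1 / κ) := by ring
    rw [e1]
    linarith
  -- the directions in dimension `k + 1`
  set w : ι → E (k + 1) := fun i => T2 (WithLp.toLp 2 (U i, (1:ℝ))) with hw
  set g : ι → E (k + 1) := fun i => ‖w i‖⁻¹ • w i with hg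
  have hw1 : ∀ i, 1 ≤ ‖w i‖ := by
    intro i
    rw [hw]
    simp only
    rw [LinearIsometryEquiv.norm_map]
    have := snd_le (U i) (1:ℝ)
    rwa [norm_one] at this
  have hw2 : ∀ i, ‖w i‖ ≤ 1 + R0 := by
    intro i
    rw [hw]
    simp only
    rw [LinearIsometryEquiv.norm_map]
    refine (le_add _ _).trans ?_
    rw [norm_one]
    linarith [hUR i]
  have hg1 : ∀ i, ‖g i‖ = 1 := by
    intro i
    rw [hg]
    simp only
    rw [norm_smul, norm_inv, norm_norm, inv_mul_cancel₀ (by linarith [hw1 i])]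
  have hwg : ∀ i, w i = ‖w i‖ • g i := by
    intro i
    rw [hg]
    simp only
    rw [smul_smul, mul_inv_cancel₀ (by linarith [hw1 i]), one_smul]
  have hgsep : ∀ i j, i ≠ j → c * δ ≤ ‖g i - g j‖ := by
    intro i j hij
    have h1 := slope_sep T2 hR00 (hUR i) (hUR j) (g i) (g j) rfl rfl
    have h2 := hsep i j hij
    rw [hc, div_mul_eq_mul_div, one_mul, div_le_iff₀ (by positivity)]
    calc δ ≤ ‖U i - U j‖ := h2.le
      _ ≤ 2 * (1 + R0) ^ 2 * ‖g i - g j‖ := h1
      _ = _ := by ring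
  -- the positions
  have hsurj : ∀ z : E (k + m + 1), ∃ (b : E k) (d : E m) (s : ℝ),
      z = T1 (WithLp.toLp 2 (T3 (WithLp.toLp 2 (b, d)), s)) := by
    intro z
    refine ⟨(T3.symm (T1.symm z).fst).fst, (T3.symm (T1.symm z).fst).snd, (T1.symm z).snd, ?_⟩
    have h1 : (WithLp.toLp 2 ((T3.symm (T1.symm z).fst).fst, (T3.symm (T1.symm z).fst).snd) :
        WithLp 2 (E k × E m)) = T3.symm (T1.symm z).fst := rfl
    rw [h1, LinearIsometryEquiv.apply_symm_apply]
    have h2 : (WithLp.toLp 2 ((T1.symm z).fst, (T1.symm z).snd) : WithLp 2 (E (k + m) × ℝ))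
        = T1.symm z := rfl
    rw [h2, LinearIsometryEquiv.apply_symm_apply]
  choose b d s hbds using fun i => hsurj (a i)
  set p : ι → E (k + 1) := fun i => T2 (WithLp.toLp 2 (b i + act M (d i), s i)) with hp
  -- the two factors
  set H : ι → E m → ℝ → ℝ≥0∞ := fun i x'' t =>
    (closedBall (d i + (t - s i) • y i) (K0 * δ)).indicator (fun _ => (1:ℝ≥0∞)) x'' with hH
  set G : ι → E k → ℝ → ℝ≥0∞ := fun i y' t =>
    (cyl (K1 * δ) (Icc (-L) L) (g i) (p i)).indicator (fun _ => (1:ℝ≥0∞))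
      (T2 (WithLp.toLp 2 (y', t))) with hG
  have hpt : ∀ (y' : E k) (x'' : E m) (t : ℝ),
      Fs δ (Icc (-(1 / 2)) (1 / 2)) e a
        (T1 (WithLp.toLp 2 (T3 (WithLp.toLp 2 (y' - act M x'', x'')), t)))
      ≤ ∑ i, H i x'' t * G i y' t := by
    intro y' x'' t
    unfold Fs
    apply Finset.sum_le_sum
    intro i _
    by_cases hmem : T1 (WithLp.toLp 2 (T3 (WithLp.toLp 2 (y' - act M x'', x'')), t))
        ∈ cyl δ (Icc (-(1 / 2)) (1 / 2)) (e i) (a i)
    swap
    · rw [indicator_of_notMem hmem]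
      exact zero_le
    rw [indicator_of_mem hmem]
    obtain ⟨h1, h2⟩ := hmem
    set σ : ℝ := inner ℝ (T1 (WithLp.toLp 2 (T3 (WithLp.toLp 2 (y' - act M x'', x'')), t)) - a i)
      (e i) with hσ
    have hσ1 : |σ| ≤ 1 / 2 := abs_le.2 h1
    have e1 : T1 (WithLp.toLp 2 (T3 (WithLp.toLp 2 (y' - act M x'', x'')), t)) - a i - σ • e i
        = T1 (WithLp.toLp 2 (T3 (WithLp.toLp 2
          ((y' - act M x'') - b i - (σ * τ i) • x i, x'' - d i - (σ * τ i) • y i)),
          t - s i - (σ * τ i) * 1)) := by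
      rw [hbds i, he i, smul_smul]
      have g1 : (WithLp.toLp 2 (T3 (WithLp.toLp 2
          ((y' - act M x'') - b i - (σ * τ i) • x i, x'' - d i - (σ * τ i) • y i)),
          t - s i - (σ * τ i) * 1) : WithLp 2 (E (k + m) × ℝ))
          = WithLp.toLp 2 (T3 (WithLp.toLp 2 (y' - act M x'', x'')), t)
            - WithLp.toLp 2 (T3 (WithLp.toLp 2 (b i, d i)), s i)
            - (σ * τ i) • WithLp.toLp 2 (T3 (WithLp.toLp 2 (x i, y i)), (1:ℝ)) := by
        rw [comb, ← comb, map_sub, map_sub, map_smul]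
        rfl
      rw [g1, map_sub, map_sub, map_smul]
    rw [e1, LinearIsometryEquiv.norm_map] at h2
    have h3 := (fst_le _ _).trans h2
    rw [LinearIsometryEquiv.norm_map] at h3
    have h4 := (fst_le _ _).trans h3
    have h5 := (snd_le _ _).trans h3
    have h6 := (snd_le _ _).trans h2
    rw [mul_one, Real.norm_eq_abs] at h6
    set lam : ℝ := t - s i with hlam
    have hlam1 : |lam| ≤ 3 / 2 := by
      have h7 : |σ * τ i| ≤ 1 / 2 := by
        rw [abs_mul, abs_of_pos (hτ0 i)]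
        have := hτ1 i
        nlinarith [abs_nonneg σ]
      have h8 : |lam| ≤ |lam - σ * τ i| + |σ * τ i| := by
        have := abs_add_le (lam - σ * τ i) (σ * τ i)
        rwa [sub_add_cancel] at this
      linarith
    have h7 : ‖x'' - d i - lam • y i‖ ≤ K0 * δ := by
      have e2 : x'' - d i - lam • y i = (x'' - d i - (σ * τ i) • y i) - (lam - σ * τ i) • y i :=
        smul_aux _ _ _ _
      rw [e2]
      refine (norm_sub_le _ _).trans ?_
      rw [norm_smul, Real.norm_eq_abs]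
      calc ‖x'' - d i - (σ * τ i) • y i‖ + |lam - σ * τ i| * ‖y i‖
          ≤ δ + δ * (1 / κ) := by
            gcongr
            exact hy i
        _ = _ := by rw [hK0]; ring
    have h8 : ‖(y' - act M x'') - b i - lam • x i‖ ≤ K0 * δ := by
      have e2 : (y' - act M x'') - b i - lam • x i
          = ((y' - act M x'') - b i - (σ * τ i) • x i) - (lam - σ * τ i) • x i :=
        smul_aux _ _ _ _
      rw [e2]
      refine (norm_sub_le _ _).trans ?_
      rw [norm_smul, Real.norm_eq_abs]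
      calc ‖(y' - act M x'') - b i - (σ * τ i) • x i‖ + |lam - σ * τ i| * ‖x i‖
          ≤ δ + δ * (1 / κ) := by
            gcongr
            exact hx i
        _ = _ := by rw [hK0]; ring
    have hH1 : H i x'' t = 1 := by
      rw [hH]
      simp only
      rw [indicator_of_mem]
      rw [mem_closedBall, dist_eq_norm]
      have e2 : x'' - (d i + (t - s i) • y i) = x'' - d i - lam • y i := (sub_sub _ _ _).symm
      rw [e2]
      exact h7
    have hG1 : G i y' t = 1 := by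
      rw [hG]
      simp only
      rw [indicator_of_mem]
      have e3 : T2 (WithLp.toLp 2 (y', t)) - p i - lam • w i
          = T2 (WithLp.toLp 2 (((y' - act M x'') - b i - lam • x i)
            + act M (x'' - d i - lam • y i), (0:ℝ))) := by
        rw [hp, hw]
        simp only
        rw [← map_smul, ← map_sub, ← map_sub, comb]
        have g2 : y' - (b i + act M (d i)) - lam • U i = ((y' - act M x'') - b i - lam • x i)
            + act M (x'' - d i - lam • y i) := by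
          rw [map_sub, map_sub, map_smul, hU]
          simp only
          rw [smul_add]
          abel
        have g3 : t - s i - lam • (1:ℝ) = 0 := by
          rw [smul_eq_mul, mul_one, hlam, sub_self]
        rw [g2, g3]
      have h9 : ‖T2 (WithLp.toLp 2 (y', t)) - p i - lam • w i‖ ≤ K1 * δ := by
        rw [e3, LinearIsometryEquiv.norm_map, norm_zero_right]
        refine (norm_add_le _ _).trans ?_
        have h10 := hact (x'' - d i - lam • y i)
        have h11 : (A - 1) * ‖x'' - d i - lam • y i‖ ≤ (A - 1) * (K0 * δ) :=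
          mul_le_mul_of_nonneg_left h7 (by linarith)
        rw [hK1]
        have e2 : K0 * A * δ = K0 * δ + (A - 1) * (K0 * δ) := by ring
        rw [e2]
        linarith
      have h10 : T2 (WithLp.toLp 2 (y', t)) - p i - lam • w i
          = T2 (WithLp.toLp 2 (y', t)) - p i - (lam * ‖w i‖) • g i := by
        rw [← smul_smul, ← hwg i]
      refine ⟨?_, ?_⟩
      · rw [mem_Icc, ← abs_le]
        refine (abs_real_inner_le_norm _ _).trans ?_
        rw [hg1, mul_one]
        have e2 : T2 (WithLp.toLp 2 (y', t)) - p i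
            = (T2 (WithLp.toLp 2 (y', t)) - p i - lam • w i) + lam • w i := by abel
        rw [e2]
        refine (norm_add_le _ _).trans ?_
        rw [norm_smul, Real.norm_eq_abs]
        have h12 : |lam| * ‖w i‖ ≤ 3 / 2 * (1 + R0) := by
          have := hw2 i
          gcongr
        have h13 : K1 * δ ≤ K1 := by nlinarith
        rw [hL]
        linarith
      · refine (perp_le (hg1 i) _ (lam * ‖w i‖)).trans ?_
        rw [← h10]
        exact h9
    rw [hH1, hG1, one_mul]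
  -- measurability
  have hFm : Measurable (fun z => Fs δ (Icc (-(1 / 2)) (1 / 2)) e a z ^ q) :=
    (measurable_Fs _ measurableSet_Icc _ _).pow_const _
  have hT2m : Measurable (fun r : E k × ℝ => T2 (WithLp.toLp 2 r)) :=
    T2.continuous.measurable.comp (WithLp.measurable_toLp 2 (E k × ℝ))
  have hGm : ∀ (i : ι) (t : ℝ), Measurable (fun y' => G i y' t) := by
    intro i t
    apply (measurable_const.indicator (measurableSet_cyl _ measurableSet_Icc _ _)).comp
    exact hT2m.comp (measurable_id.prodMk measurable_const)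
  have hHm : ∀ (i : ι) (t : ℝ), Measurable (fun x'' => H i x'' t) := fun i t =>
    measurable_const.indicator measurableSet_closedBall
  set GG : E k → ℝ → ℝ≥0∞ := fun y' t => Fs (K1 * δ) (Icc (-L) L) g p
    (T2 (WithLp.toLp 2 (y', t))) with hGG
  have hGGsum : ∀ y' t, GG y' t = ∑ i, G i y' t := fun y' t => rfl
  have hGGm : ∀ t, Measurable (fun y' => GG y' t) := by
    intro t
    exact (measurable_Fs _ measurableSet_Icc _ _).comp
      (hT2m.comp (measurable_id.prodMk measurable_const))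
  have hGGt : ∀ y' t, GG y' t ≠ ⊤ := by
    intro y' t
    exact ne_top_of_le_ne_top (ENNReal.natCast_ne_top _) (Fs_le _ _ _ _ _)
  -- the fibres
  have hball : ∀ (i : ι) (t : ℝ), ∫⁻ x'', H i x'' t ≤ ENNReal.ofReal ((K0 * δ) ^ m) * V := by
    intro i t
    rw [hH]
    simp only
    rw [lintegral_indicator measurableSet_closedBall, setLIntegral_const, one_mul,
      Measure.addHaar_closedBall _ _ (by positivity), finrank_euclideanSpace_fin]
  have hfib : ∀ t : ℝ, ∫⁻ x'' : E m, ∫⁻ x' : E k, Fs δ (Icc (-(1 / 2)) (1 / 2)) e a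
      (T1 (WithLp.toLp 2 (T3 (WithLp.toLp 2 (x', x'')), t))) ^ q
      ≤ ENNReal.ofReal ((K0 * δ) ^ m) * V * ∫⁻ y' : E k, GG y' t ^ q := by
    intro t
    calc ∫⁻ x'' : E m, ∫⁻ x' : E k, Fs δ (Icc (-(1 / 2)) (1 / 2)) e a
          (T1 (WithLp.toLp 2 (T3 (WithLp.toLp 2 (x', x'')), t))) ^ q
        = ∫⁻ x'' : E m, ∫⁻ y' : E k, Fs δ (Icc (-(1 / 2)) (1 / 2)) e a
          (T1 (WithLp.toLp 2 (T3 (WithLp.toLp 2 (y' - act M x'', x'')), t))) ^ q := by
          apply lintegral_congr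
          intro x''
          exact (lintegral_sub_right_eq_self (fun x' : E k => Fs δ (Icc (-(1 / 2)) (1 / 2)) e a
            (T1 (WithLp.toLp 2 (T3 (WithLp.toLp 2 (x', x'')), t))) ^ q) (act M x'')).symm
      _ ≤ ∫⁻ x'' : E m, ∫⁻ y' : E k, GG y' t ^ (q - 1) * ∑ i, H i x'' t * G i y' t := by
          apply lintegral_mono
          intro x''
          apply lintegral_mono
          intro y'
          have h1 : ∑ i, H i x'' t * G i y' t ≤ GG y' t := by
            rw [hGGsum]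
            apply Finset.sum_le_sum
            intro i _
            calc H i x'' t * G i y' t ≤ 1 * G i y' t := by
                  gcongr
                  exact indicator_le_self' (fun _ _ => zero_le) _
              _ = _ := one_mul _
          calc Fs δ (Icc (-(1 / 2)) (1 / 2)) e a
                (T1 (WithLp.toLp 2 (T3 (WithLp.toLp 2 (y' - act M x'', x'')), t))) ^ q
              ≤ (∑ i, H i x'' t * G i y' t) ^ q := ENNReal.rpow_le_rpow (hpt _ _ _) hq0.le
            _ = (∑ i, H i x'' t * G i y' t) ^ (q - 1) * ∑ i, H i x'' t * G i y' t := by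
                have e1 : q = (q - 1) + 1 := by ring
                conv_lhs => rw [e1]
                rw [ENNReal.rpow_add_of_nonneg _ _ (by linarith) (by norm_num), ENNReal.rpow_one]
            _ ≤ _ := by
                apply mul_le_mul_left
                exact ENNReal.rpow_le_rpow h1 (by linarith)
      _ = ∫⁻ y' : E k, ∫⁻ x'' : E m, GG y' t ^ (q - 1) * ∑ i, H i x'' t * G i y' t := by
          apply lintegral_lintegral_swap
          apply Measurable.aemeasurable
          apply Measurable.mul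
          · exact ((hGGm t).pow_const _).comp measurable_snd
          · apply Finset.measurable_fun_sum
            intro i _
            exact ((hHm i t).comp measurable_fst).mul ((hGm i t).comp measurable_snd)
      _ ≤ ∫⁻ y' : E k, ENNReal.ofReal ((K0 * δ) ^ m) * V * GG y' t ^ q := by
          apply lintegral_mono
          intro y'
          simp only
          rw [lintegral_const_mul' _ _ (ENNReal.rpow_ne_top_of_nonneg (by linarith) (hGGt _ _)),
            lintegral_finsetSum _ (fun i _ => (hHm i t).mul_const _)]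
          have h1 : ∑ i, ∫⁻ x'', H i x'' t * G i y' t
              ≤ ENNReal.ofReal ((K0 * δ) ^ m) * V * GG y' t := by
            rw [hGGsum, Finset.mul_sum]
            apply Finset.sum_le_sum
            intro i _
            rw [lintegral_mul_const _ (hHm i t)]
            gcongr
            exact hball i t
          calc GG y' t ^ (q - 1) * ∑ i, ∫⁻ x'', H i x'' t * G i y' t
              ≤ GG y' t ^ (q - 1) * (ENNReal.ofReal ((K0 * δ) ^ m) * V * GG y' t) := by gcongr
            _ = ENNReal.ofReal ((K0 * δ) ^ m) * V * (GG y' t ^ (q - 1) * GG y' t) := by ring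
            _ = _ := by
                have e1 : GG y' t ^ q = GG y' t ^ (q - 1) * GG y' t := by
                  have e1 : q = (q - 1) + 1 := by ring
                  conv_lhs => rw [e1]
                  rw [ENNReal.rpow_add_of_nonneg _ _ (by linarith) (by norm_num),
                    ENNReal.rpow_one]
                rw [e1]
      _ = _ := by
          rw [lintegral_const_mul' _ _ (ENNReal.mul_ne_top ENNReal.ofReal_ne_top hVt)]
  have hmod := hmodel δ hδ hδ1 ι g p hg1 hgsep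
  calc ∫⁻ z, Fs δ (Icc (-(1 / 2)) (1 / 2)) e a z ^ q
      = ∫⁻ t : ℝ, ∫⁻ z : E (k + m), Fs δ (Icc (-(1 / 2)) (1 / 2)) e a
          (T1 (WithLp.toLp 2 (z, t))) ^ q := lintegral_dec T1 hFm
    _ = ∫⁻ t : ℝ, ∫⁻ x'' : E m, ∫⁻ x' : E k, Fs δ (Icc (-(1 / 2)) (1 / 2)) e a
      (T1 (WithLp.toLp 2 (T3 (WithLp.toLp 2 (x', x'')), t))) ^ q := by
        apply lintegral_congr
        intro t
        apply lintegral_dec T3 (H := fun z : E (k + m) => Fs δ (Icc (-(1 / 2)) (1 / 2)) e a
          (T1 (WithLp.toLp 2 (z, t))) ^ q)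
        apply hFm.comp
        exact T1.continuous.measurable.comp ((WithLp.measurable_toLp 2 (E (k + m) × ℝ)).comp
          (measurable_id.prodMk measurable_const))
    _ ≤ ∫⁻ t : ℝ, ENNReal.ofReal ((K0 * δ) ^ m) * V * ∫⁻ y' : E k, GG y' t ^ q :=
        lintegral_mono hfib
    _ = ENNReal.ofReal ((K0 * δ) ^ m) * V * ∫⁻ t : ℝ, ∫⁻ y' : E k, GG y' t ^ q := by
        rw [lintegral_const_mul' _ _ (ENNReal.mul_ne_top ENNReal.ofReal_ne_top hVt)]
    _ = ENNReal.ofReal ((K0 * δ) ^ m) * V * ∫⁻ y, Fs (K1 * δ) (Icc (-L) L) g p y ^ q := by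
        rw [lintegral_dec T2 ((measurable_Fs _ measurableSet_Icc _ _).pow_const _)]
    _ ≤ ENNReal.ofReal ((K0 * δ) ^ m) * V *
          ENNReal.ofReal (Cm * δ ^ (-ε) * (δ ^ k * (Fintype.card ι : ℝ) ^ (q - 1 / (k:ℝ)))) := by
        gcongr
    _ ≤ ENNReal.ofReal ((K0 * δ) ^ m) * ENNReal.ofReal (V.toReal + 1) *
          ENNReal.ofReal (Cm * δ ^ (-ε) * (δ ^ k * (Fintype.card ι : ℝ) ^ (q - 1 / (k:ℝ)))) := by
        gcongr
        calc V = ENNReal.ofReal V.toReal := (ENNReal.ofReal_toReal hVt).symm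
          _ ≤ _ := ENNReal.ofReal_le_ofReal (by linarith)
    _ = _ := by
        rw [← ENNReal.ofReal_mul (by positivity), ← ENNReal.ofReal_mul (by positivity)]
        congr 1
        rw [mul_pow K0, pow_add]
        ring

end Pool.Agent.Helper30.Lo
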