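import Pool.Agent.Helper30.Lo.Main

set_option autoImplicit false
set_option linter.unusedSectionVars false

/-!
Interpolation, dimension conditions, and the converse.
-/

open MeasureTheory Set Filter Topology ENNReal NNReal Metric

namespace Pool.Agent.Helper30.Lo

open Pool.Agent.H742R2.Kk Pool.Agent.W767.Kc Pool.Agent.K3h46.TMC Pool.Agent.Helper37.Kp

theorem lw_of_ll {k : ℕ} {Q : ℝ} (hQ : 0 < Q) (h : LL k Q) : LW k Q 0 := by
  obtain ⟨C, hC, h⟩ := h
  refine ⟨C, hC, ?_⟩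
  intro δ hδ hδ1 ι _ e a he hsep
  rw [neg_zero, Real.rpow_zero, mul_one]
  refine le_trans ?_ (h δ hδ hδ1 ι e a he hsep)
  apply lintegral_mono
  intro y
  exact ENNReal.rpow_le_rpow (Fs_mono (by linarith) subset_rfl _ _ _) hQ.le

/-- The inequality of the problem for orientations with a small potential. -/
theorem interp_all {k m : ℕ} (hk : 1 ≤ k) {c γ q : ℝ} (hc : 0 < c)
    (hT : ∀ Q : ℝ, 1 + c / k < Q → LL k Q) (hγ1 : γ ≤ m / ((k + m : ℕ) : ℝ))
    (hq : 1 + c / ((1 - γ) * ((k + m : ℕ) : ℝ)) < q) : ∃ C : ℝ, 0 < C ∧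
    ∀ δ : ℝ, 0 < δ → δ < 1 → ∀ (ι : Type) [Fintype ι] [Nonempty ι]
    [DecidableEq ι] (e a : ι → E (k + m + 1)), (∀ i, ‖e i‖ = 1) → (∀ i j, i ≠ j → e i ≠ e j) →
    ∀ P A : ℝ, 0 ≤ P → 0 < A →
    (∀ i, ∑ j ∈ Finset.univ.filter (fun j => j ≠ i), (δ / ‖e i - e j‖) ^ k ≤ P) →
    1 + P ≤ A * (Fintype.card ι : ℝ) ^ γ →
    (∫⁻ y, Fs δ (Icc (-(1 / 2)) (1 / 2)) e a y ^ q) ^ (1 / q) ≤
      ENNReal.ofReal (C * A ^ (1 / (q * ((1 - γ) * ((k + m : ℕ) : ℝ)))) *
        δ ^ (((k + m : ℕ) : ℝ) / q) *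
        (Fintype.card ι : ℝ) ^ (1 - 1 / (q * ((k + m : ℕ) : ℝ)))) := by
  have hk0 : (0:ℝ) < k := by exact_mod_cast hk
  have hd0 : (0:ℝ) < ((k + m : ℕ) : ℝ) := by push_cast; positivity
  have hde : ((k + m : ℕ) : ℝ) = k + m := by push_cast; ring
  set d : ℝ := ((k + m : ℕ) : ℝ) with hd
  have h1γ : k ≤ (1 - γ) * d := by
    have h1 : γ * d ≤ m := by
      rw [le_div_iff₀ hd0] at hγ1
      exact hγ1
    nlinarith
  have hD0 : 0 < (1 - γ) * d := hk0.trans_le h1γ
  have hq1 : 1 < q := by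
    have : 0 < c / ((1 - γ) * d) := by positivity
    linarith
  have hq0 : 0 < q := by linarith
  set Q : ℝ := 1 + (q - 1) * ((1 - γ) * d) / k with hQ
  have hqQ : q ≤ Q := by
    have h1 : (q - 1) * k ≤ (q - 1) * ((1 - γ) * d) := by
      apply mul_le_mul_of_nonneg_left h1γ (by linarith)
    have h2 : q - 1 ≤ (q - 1) * ((1 - γ) * d) / k := by
      rw [le_div_iff₀ hk0]; exact h1
    linarith
  have hcQ : 1 + c / k < Q := by
    have h1 : c / ((1 - γ) * d) < q - 1 := by linarith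
    rw [div_lt_iff₀ hD0] at h1
    have h2 : c / k < (q - 1) * ((1 - γ) * d) / k := by gcongr
    linarith
  have hQ1 : 1 < Q := by linarith
  have hQ0 : 0 < Q := by linarith
  set w : ℝ := (q - 1) / (Q - 1) with hw
  have hQm : Q - 1 = (q - 1) * ((1 - γ) * d) / k := by rw [hQ]; ring
  have hq10 : 0 < q - 1 := by linarith
  have hwe : w = k / ((1 - γ) * d) := by
    rw [hw, hQm]
    field_simp
  have hw0 : 0 < w := by rw [hwe]; positivity
  have hw1 : w ≤ 1 := by rw [hwe, div_le_one hD0]; exact h1γ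
  obtain ⟨C, hC, h⟩ := all_families (m := m) (ε := 0) hk hQ1 le_rfl (lw_of_ll hQ0 (hT Q hcQ))
  refine ⟨((2 ^ (k + m)) ^ (1 - w) * (C ^ Q) ^ w) ^ (1 / q), by positivity, ?_⟩
  intro δ hδ hδ1 ι _ _ _ e a he hne P A hP hA hPot hPA
  have hN0 : (0:ℝ) < Fintype.card ι := Nat.cast_pos.2 Fintype.card_pos
  have h1 := h δ hδ hδ1 ι e a he hne P hP hPot
  set N : ℝ := (Fintype.card ι : ℝ) with hN
  have h2 := lintegral_Fs_le (p := a) hδ (by norm_num : (0:ℝ) < 1 / 2)
    (measurableSet_Icc (a := (-(1 / 2) : ℝ)) (b := 1 / 2)) le_rfl he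
  set F := Fs δ (Icc (-(1 / 2)) (1 / 2)) e a with hF
  have hFm : Measurable F := measurable_Fs _ measurableSet_Icc _ _
  have h3 := Pool.Agent.H810R3.Tub.interp (μ := volume) hFm (p := q) (q := Q) hQ1 hq1.le hqQ
  rw [← hw] at h3
  rw [← hN] at h2
  have e0 : N * (2 * (1 / 2) * (2 * δ) ^ (k + m)) = 2 ^ (k + m) * (δ ^ (k + m) * N) := by
    rw [mul_pow]; ring
  rw [e0] at h2
  have hδk : 0 < δ ^ (k + m) := by positivity
  have h1P : 0 < 1 + P := by linarith
  -- the norm at the large exponent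
  have h4 : ∫⁻ y, F y ^ Q ≤ ENNReal.ofReal (C ^ Q * (δ ^ (k + m) * ((1 + P) ^ (1 / (k:ℝ)) *
      N ^ (Q - 1 / k)))) := by
    have h5 := ENNReal.rpow_le_rpow h1 hQ0.le
    rw [← ENNReal.rpow_mul, one_div_mul_cancel hQ0.ne', ENNReal.rpow_one,
      ENNReal.ofReal_rpow_of_nonneg (by positivity) hQ0.le] at h5
    refine h5.trans (le_of_eq ?_)
    congr 1
    rw [neg_zero, Real.rpow_zero, one_mul, Real.mul_rpow (by positivity) (by positivity),
      Real.mul_rpow (by positivity) (by positivity), Real.mul_rpow (by positivity) (by positivity),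
      ← Real.rpow_mul (by positivity), ← Real.rpow_mul (by positivity),
      ← Real.rpow_mul (by positivity), one_div_mul_cancel hQ0.ne', Real.rpow_one]
    have e1 : 1 / (Q * (k:ℝ)) * Q = 1 / k := by field_simp
    have e2 : (1 - 1 / (Q * (k:ℝ))) * Q = Q - 1 / k := by field_simp
    rw [e1, e2]
    ring
  have h5 : ∫⁻ y, F y ^ q ≤ ENNReal.ofReal ((2 ^ (k + m)) ^ (1 - w) * (C ^ Q) ^ w *
      A ^ (1 / ((1 - γ) * d)) * (δ ^ (k + m) * N ^ (q - 1 / d))) := by
    calc ∫⁻ y, F y ^ q ≤ (∫⁻ y, F y) ^ (1 - w) * (∫⁻ y, F y ^ Q) ^ w := h3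
      _ ≤ (ENNReal.ofReal (2 ^ (k + m) * (δ ^ (k + m) * N))) ^ (1 - w) *
          (ENNReal.ofReal (C ^ Q * (δ ^ (k + m) * ((1 + P) ^ (1 / (k:ℝ)) *
            N ^ (Q - 1 / k))))) ^ w :=
          mul_le_mul' (ENNReal.rpow_le_rpow h2 (by linarith)) (ENNReal.rpow_le_rpow h4 hw0.le)
      _ = ENNReal.ofReal ((2 ^ (k + m) * (δ ^ (k + m) * N)) ^ (1 - w) *
          (C ^ Q * (δ ^ (k + m) * ((1 + P) ^ (1 / (k:ℝ)) * N ^ (Q - 1 / k)))) ^ w) := by
          rw [ENNReal.ofReal_rpow_of_nonneg (by positivity) (by linarith),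
            ENNReal.ofReal_rpow_of_nonneg (by positivity) hw0.le,
            ← ENNReal.ofReal_mul (by positivity)]
      _ = ENNReal.ofReal ((2 ^ (k + m)) ^ (1 - w) * (C ^ Q) ^ w *
          (1 + P) ^ (1 / ((1 - γ) * d)) * (δ ^ (k + m) * N ^ (q - w / k))) := by
          congr 1
          rw [Real.mul_rpow (x := 2 ^ (k + m)) (by positivity) (by positivity),
            Real.mul_rpow (x := δ ^ (k + m)) (y := N) (by positivity) (by positivity),
            Real.mul_rpow (x := C ^ Q) (by positivity) (by positivity),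
            Real.mul_rpow (x := δ ^ (k + m)) (y := (1 + P) ^ (1 / (k:ℝ)) * N ^ (Q - 1 / k))
              (by positivity) (by positivity),
            Real.mul_rpow (x := (1 + P) ^ (1 / (k:ℝ))) (by positivity) (by positivity),
            ← Real.rpow_mul hN0.le, ← Real.rpow_mul h1P.le]
          have e1 : δ ^ (k + m) = (δ ^ (k + m)) ^ (1 - w) * (δ ^ (k + m)) ^ w := by
            rw [← Real.rpow_add hδk, sub_add_cancel, Real.rpow_one]
          have e2 : N ^ (q - w / k) = N ^ (1 - w) * N ^ ((Q - 1 / k) * w) := by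
            rw [← Real.rpow_add hN0]
            congr 1
            have : w * (Q - 1) = q - 1 := by
              rw [hw, div_mul_cancel₀]
              linarith
            have e3 : (Q - 1 / k) * w = w * (Q - 1) + w - w / k := by ring
            rw [e3, this]
            ring
          have e3 : 1 / (k:ℝ) * w = 1 / ((1 - γ) * d) := by
            rw [hwe]; field_simp
          rw [e2, e3]
          nth_rewrite 3 [e1]
          ring
      _ ≤ _ := by
          apply ENNReal.ofReal_le_ofReal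
          have e4 : (1 + P) ^ (1 / ((1 - γ) * d)) ≤ A ^ (1 / ((1 - γ) * d)) *
              N ^ (γ * (1 / ((1 - γ) * d))) := by
            rw [Real.rpow_mul hN0.le, ← Real.mul_rpow hA.le (by positivity)]
            exact Real.rpow_le_rpow h1P.le hPA (by positivity)
          have e5 : N ^ (γ * (1 / ((1 - γ) * d))) * N ^ (q - w / k) = N ^ (q - 1 / d) := by
            rw [← Real.rpow_add hN0]
            congr 1
            rw [hwe]
            have h1γ' : (1 - γ) ≠ 0 := by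
              intro h0
              rw [h0, zero_mul] at hD0
              exact lt_irrefl _ hD0
            field_simp
            ring
          calc (2 ^ (k + m)) ^ (1 - w) * (C ^ Q) ^ w *
                (1 + P) ^ (1 / ((1 - γ) * d)) * (δ ^ (k + m) * N ^ (q - w / k))
              ≤ (2 ^ (k + m)) ^ (1 - w) * (C ^ Q) ^ w *
                (A ^ (1 / ((1 - γ) * d)) * N ^ (γ * (1 / ((1 - γ) * d)))) *
                (δ ^ (k + m) * N ^ (q - w / k)) := by gcongr
            _ = (2 ^ (k + m)) ^ (1 - w) * (C ^ Q) ^ w * A ^ (1 / ((1 - γ) * d)) *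
                (δ ^ (k + m) * (N ^ (γ * (1 / ((1 - γ) * d))) * N ^ (q - w / k))) := by ring
            _ = _ := by rw [e5]
  have h6 := ENNReal.rpow_le_rpow h5 (show 0 ≤ 1 / q by positivity)
  refine h6.trans (le_of_eq ?_)
  rw [ENNReal.ofReal_rpow_of_nonneg (by positivity) (by positivity)]
  congr 1
  rw [Real.mul_rpow (by positivity) (by positivity),
    Real.mul_rpow (x := (2 ^ (k + m)) ^ (1 - w) * (C ^ Q) ^ w) (by positivity) (by positivity),
    Real.mul_rpow (x := δ ^ (k + m)) (by positivity) (by positivity),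
    ← Real.rpow_mul (x := A) hA.le, ← Real.rpow_mul (x := N) hN0.le, ← Real.rpow_natCast δ,
    ← Real.rpow_mul hδ.le]
  have e6 : 1 / ((1 - γ) * d) * (1 / q) = 1 / (q * ((1 - γ) * d)) := by
    field_simp
  have e7 : (q - 1 / d) * (1 / q) = 1 - 1 / (q * d) := by field_simp
  have e8 : ((k + m : ℕ) : ℝ) * (1 / q) = d / q := by rw [← hd]; ring
  rw [e6, e7, e8]
  ring

/-- The orientations have dimension at most `k`. -/
def DimLE {n : ℕ} {ι : Type} [Fintype ι] (k : ℕ) (A δ : ℝ) (e : ι → E n) : Prop :=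
  ∀ (i : ι) (ρ : ℝ), δ ≤ ρ → (Nat.card {j // ‖e j - e i‖ ≤ ρ} : ℝ) ≤ A * (ρ / δ) ^ k

theorem pot_le {n k : ℕ} (hk : 1 ≤ k) {ι : Type} [Fintype ι] [DecidableEq ι] {A δ : ℝ}
    (hA : 0 ≤ A) (hδ : 0 < δ) {e : ι → E n} (hsep : ∀ i j, i ≠ j → δ ≤ ‖e i - e j‖)
    (hdim : DimLE k A δ e) (i : ι) :
    ∑ j ∈ Finset.univ.filter (fun j => j ≠ i), (δ / ‖e i - e j‖) ^ k ≤
      A * (1 + Real.log (Fintype.card ι)) := by
  have hk0 : (0:ℝ) < k := by exact_mod_cast hk
  -- a positive function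
  set f : ι → ℝ := fun j => if j = i then 1 else (‖e i - e j‖ / δ) ^ k with hf
  have hf0 : ∀ j, 0 < f j := by
    intro j
    simp only [hf]
    split_ifs with h
    · norm_num
    · have := hδ.trans_le (hsep i j (Ne.symm h))
      positivity
  set s : Finset ι := Finset.univ.filter (fun j => j ≠ i) with hs
  have hfs : ∀ j ∈ s, f j = (‖e i - e j‖ / δ) ^ k := by
    intro j hj
    simp only [hf]
    rw [if_neg (Finset.mem_filter.1 hj).2]
  have hf1 : ∀ j ∈ s, 1 ≤ f j := by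
    intro j hj
    rw [hfs j hj]
    apply one_le_pow₀
    rw [le_div_iff₀ hδ, one_mul]
    exact hsep i j (Ne.symm (Finset.mem_filter.1 hj).2)
  have h1 := harm (A := A) f hf0 s.card s rfl (by
    intro y
    by_cases hy : y < 1
    · rcases lt_or_ge y 0 with h0 | h0
      · exact Or.inr h0
      left
      have : s.filter (fun j => f j ≤ y) = ∅ := by
        apply Finset.filter_eq_empty_iff.2
        intro j hj
        have := hf1 j hj
        push Not
        linarith
      rw [this, Finset.card_empty, Nat.cast_zero]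
      positivity
    · push Not at hy
      left
      have hy0 : 0 < y := by linarith
      set ρ : ℝ := δ * y ^ (1 / (k:ℝ)) with hρ
      have hyk : (y ^ (1 / (k:ℝ))) ^ k = y := by
        rw [← Real.rpow_natCast, ← Real.rpow_mul hy0.le, one_div_mul_cancel hk0.ne', Real.rpow_one]
      have hy1 : 1 ≤ y ^ (1 / (k:ℝ)) := Real.one_le_rpow hy (by positivity)
      have h2 := hdim i ρ (by rw [hρ]; nlinarith)
      have e1 : (ρ / δ) ^ k = y := by
        have : ρ / δ = y ^ (1 / (k:ℝ)) := by rw [hρ]; field_simp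
        rw [this, hyk]
      rw [e1] at h2
      refine le_trans ?_ h2
      have h3 : (s.filter (fun j => f j ≤ y)).card ≤ Nat.card {j // ‖e j - e i‖ ≤ ρ} := by
        rw [Nat.card_eq_fintype_card, Fintype.card_subtype]
        apply Finset.card_le_card
        intro j hj
        obtain ⟨hj1, hj2⟩ := Finset.mem_filter.1 hj
        rw [hfs j hj1] at hj2
        refine Finset.mem_filter.2 ⟨Finset.mem_univ _, ?_⟩
        have h4 : ‖e i - e j‖ / δ ≤ y ^ (1 / (k:ℝ)) := by
          by_contra hcon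
          push Not at hcon
          have h5 : (y ^ (1 / (k:ℝ))) ^ k < (‖e i - e j‖ / δ) ^ k :=
            pow_lt_pow_left₀ hcon (by positivity) (by omega)
          rw [hyk] at h5
          linarith
        rw [div_le_iff₀ hδ] at h4
        rw [norm_sub_rev, hρ]
        linarith
      exact_mod_cast h3)
  calc ∑ j ∈ s, (δ / ‖e i - e j‖) ^ k = ∑ j ∈ s, 1 / f j := by
        apply Finset.sum_congr rfl
        intro j hj
        rw [hfs j hj, div_pow, div_pow, one_div_div]
    _ ≤ A * ∑ l ∈ Finset.range s.card, 1 / ((l:ℝ) + 1) := h1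
    _ ≤ A * ∑ l ∈ Finset.range (Fintype.card ι), 1 / ((l:ℝ) + 1) := by
        gcongr
        exact Finset.card_le_univ _
    _ ≤ _ := by
        gcongr
        exact sum_inv_le_log _

theorem log_le {N γ A : ℝ} (hN : 1 ≤ N) (hγ : 0 < γ) (hA : 0 ≤ A) :
    1 + A * (1 + Real.log N) ≤ (1 + A) * (1 + 1 / γ) * N ^ γ := by
  have h1 : Real.log N ≤ N ^ γ / γ := Real.log_le_rpow_div (by linarith) hγ
  have h2 : 1 ≤ N ^ γ := Real.one_le_rpow hN hγ.le
  have h3 : 0 ≤ Real.log N := Real.log_nonneg hN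
  have h4 : 1 + Real.log N ≤ (1 + 1 / γ) * N ^ γ := by
    have : (1 + 1 / γ) * N ^ γ = N ^ γ + N ^ γ / γ := by ring
    rw [this]
    linarith
  calc 1 + A * (1 + Real.log N) ≤ (1 + A) * (1 + Real.log N) := by nlinarith
    _ ≤ (1 + A) * ((1 + 1 / γ) * N ^ γ) := by gcongr
    _ = _ := by ring

/-- The inequality of the problem for orientations of dimension at most `k`. -/
theorem dim_le {k m : ℕ} (hk : 1 ≤ k) (hm : 1 ≤ m) {c q : ℝ} (hc : 1 ≤ c)
    (hT : ∀ Q : ℝ, 1 + c / k < Q → LL k Q)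
    (hq : 1 + c / ((k + m : ℕ) : ℝ) < q) : ∃ C : ℝ, 0 < C ∧
    ∀ A : ℝ, 0 ≤ A → ∀ δ : ℝ, 0 < δ → δ < 1 → ∀ (ι : Type) [Fintype ι] [Nonempty ι]
    (e a : ι → E (k + m + 1)), (∀ i, ‖e i‖ = 1) → (∀ i j, i ≠ j → δ ≤ ‖e i - e j‖) →
    DimLE k A δ e →
    (∫⁻ y, Fs δ (Icc (-(1 / 2)) (1 / 2)) e a y ^ q) ^ (1 / q) ≤
      ENNReal.ofReal (C * (1 + A) ^ (1 - 1 / q) * δ ^ (((k + m : ℕ) : ℝ) / q) *
        (Fintype.card ι : ℝ) ^ (1 - 1 / (q * ((k + m : ℕ) : ℝ)))) := by
  have hk0 : (0:ℝ) < k := by exact_mod_cast hk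
  have hm0 : (0:ℝ) < m := by exact_mod_cast hm
  have hd0 : (0:ℝ) < ((k + m : ℕ) : ℝ) := by push_cast; positivity
  set d : ℝ := ((k + m : ℕ) : ℝ) with hd
  have hc0 : 0 < c := by linarith
  have hcd : 0 < c / d := by positivity
  have hq10 : 0 < q - 1 := by linarith
  have hq0 : 0 < q := by linarith
  set γ0 : ℝ := 1 - c / ((q - 1) * d) with hγ0
  have hγ00 : 0 < γ0 := by
    rw [hγ0]
    have h1 : c / d < q - 1 := by linarith
    rw [div_lt_iff₀ hd0] at h1
    have : c / ((q - 1) * d) < 1 := by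
      rw [div_lt_one (by positivity)]; exact h1
    linarith
  set γ : ℝ := min (m / d) (γ0 / 2) with hγ
  have hγpos : 0 < γ := lt_min (by positivity) (by positivity)
  have hγlt : γ < γ0 := (min_le_right _ _).trans_lt (by linarith)
  have hγc : c < (q - 1) * ((1 - γ) * d) := by
    have h1 : (1 - γ0) * ((q - 1) * d) = c := by
      have : (q - 1) * d ≠ 0 := by positivity
      rw [hγ0]; field_simp; ring
    have h2 : 0 < (q - 1) * d := by positivity
    nlinarith
  have h1γd : 0 < (1 - γ) * d := by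
    by_contra hcon
    push Not at hcon
    nlinarith
  obtain ⟨C, hC, h⟩ := interp_all (m := m) hk hc0 hT (min_le_left _ _ : γ ≤ m / d) (q := q) (by
    have : c / ((1 - γ) * d) < q - 1 := by
      rw [div_lt_iff₀ h1γd]; exact hγc
    rw [← hd]
    linarith)
  rw [← hd] at h
  set u : ℝ := 1 / (q * ((1 - γ) * d)) with hu
  have hu0 : 0 < u := by positivity
  have hu1 : u ≤ 1 - 1 / q := by
    have e1 : 1 - 1 / q = (q - 1) / q := by field_simp
    rw [e1, hu, div_le_div_iff₀ (by positivity) hq0]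
    nlinarith
  refine ⟨C * (1 + 1 / γ) ^ u, by positivity, ?_⟩
  intro A hA δ hδ hδ1 ι _ _ e a he hsep hdim
  classical
  have hN0 : (0:ℝ) < Fintype.card ι := Nat.cast_pos.2 Fintype.card_pos
  have hN1 : (1:ℝ) ≤ Fintype.card ι := by exact_mod_cast Fintype.card_pos
  have h1 := h δ hδ hδ1 ι e a he (fun i j hij h0 => by
    have := hsep i j hij
    rw [h0, sub_self, norm_zero] at this
    linarith) (A * (1 + Real.log (Fintype.card ι))) ((1 + A) * (1 + 1 / γ))
    (mul_nonneg hA (by linarith [Real.log_nonneg hN1])) (by positivity)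
    (pot_le hk hA hδ hsep hdim) (log_le hN1 hγpos hA)
  refine h1.trans ?_
  apply ENNReal.ofReal_le_ofReal
  rw [Real.mul_rpow (by positivity) (by positivity)]
  have h2 : (1 + A) ^ u ≤ (1 + A) ^ (1 - 1 / q) :=
    Real.rpow_le_rpow_of_exponent_le (by linarith) hu1
  calc C * ((1 + A) ^ u * (1 + 1 / γ) ^ u) * δ ^ (d / q) *
        (Fintype.card ι : ℝ) ^ (1 - 1 / (q * d))
      ≤ C * ((1 + A) ^ (1 - 1 / q) * (1 + 1 / γ) ^ u) * δ ^ (d / q) *
        (Fintype.card ι : ℝ) ^ (1 - 1 / (q * d)) := by gcongr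
    _ = _ := by ring

end Pool.Agent.Helper30.Lo
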