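import Pool.Agent.Helper30.Lo.Fibre

set_option autoImplicit false
set_option linter.unusedSectionVars false

/-!
The estimate for all families, with the potential of the orientations.
-/

open MeasureTheory Set Filter Topology ENNReal NNReal Metric

namespace Pool.Agent.Helper30.Lo

open Pool.Agent.H742R2.Kk Pool.Agent.W767.Kc Pool.Agent.K3h46.TMC Pool.Agent.Helper37.Kp

/-- Directions and slopes. -/
theorem dir_lip {n : ℕ} (T1 : WithLp 2 (E n × ℝ) ≃ₗᵢ[ℝ] E (n + 1)) {z z' : E n} {τ τ' : ℝ}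
    (hτ : 0 < τ) (hτ' : 0 < τ') {e e' : E (n + 1)} (he : e = τ • T1 (WithLp.toLp 2 (z, (1:ℝ))))
    (he' : e' = τ' • T1 (WithLp.toLp 2 (z', (1:ℝ)))) (hu : ‖e‖ = 1) (hu' : ‖e'‖ = 1) :
    ‖e - e'‖ ≤ 2 * ‖z - z'‖ := by
  set w : E (n + 1) := T1 (WithLp.toLp 2 (z, (1:ℝ))) with hw
  set w' : E (n + 1) := T1 (WithLp.toLp 2 (z', (1:ℝ))) with hw'
  have h1 : τ * ‖w‖ = 1 := by rw [← hu, he, norm_smul, Real.norm_of_nonneg hτ.le]
  have h1' : τ' * ‖w'‖ = 1 := by rw [← hu', he', norm_smul, Real.norm_of_nonneg hτ'.le]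
  have h2 : ‖w - w'‖ = ‖z - z'‖ := by
    rw [hw, hw', ← map_sub, LinearIsometryEquiv.norm_map]
    have g4 : (WithLp.toLp 2 (z, (1:ℝ)) - WithLp.toLp 2 (z', (1:ℝ)) : WithLp 2 (E n × ℝ))
        = WithLp.toLp 2 (z - z', (1:ℝ) - 1) := rfl
    rw [g4, sub_self, norm_zero_right]
  have h3 : 1 ≤ ‖w‖ := by
    rw [hw, LinearIsometryEquiv.norm_map]
    have := snd_le z (1:ℝ)
    rwa [norm_one] at this
  have hτ1 : τ ≤ 1 := by nlinarith
  have e1 : e - e' = τ • (w - w') + (τ - τ') • w' := by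
    rw [he, he', smul_sub, sub_smul]; abel
  have e2 : (τ - τ') * ‖w'‖ = τ * (‖w'‖ - ‖w‖) := by
    rw [sub_mul, h1', mul_sub, h1]
  have h4 : |τ - τ'| * ‖w'‖ ≤ ‖z - z'‖ := by
    have e3 : |τ - τ'| * ‖w'‖ = |(τ - τ') * ‖w'‖| := by
      rw [abs_mul, abs_of_nonneg (norm_nonneg w')]
    rw [e3, e2, abs_mul, abs_of_pos hτ]
    calc τ * |‖w'‖ - ‖w‖| ≤ 1 * ‖z - z'‖ := by
          gcongr
          rw [← h2, norm_sub_rev]
          exact abs_norm_sub_norm_le _ _
      _ = _ := one_mul _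
  rw [e1]
  refine (norm_add_le _ _).trans ?_
  rw [norm_smul, norm_smul, Real.norm_of_nonneg hτ.le, Real.norm_eq_abs, h2]
  have h5 : τ * ‖z - z'‖ ≤ 1 * ‖z - z'‖ := by gcongr
  linarith

/-- Coordinates for a direction. -/
theorem exists_coord {k m : ℕ} (T1 : WithLp 2 (E (k + m) × ℝ) ≃ₗᵢ[ℝ] E (k + m + 1))
    (T3 : WithLp 2 (E k × E m) ≃ₗᵢ[ℝ] E (k + m)) {u0 : E (k + m + 1)}
    (hT1 : T1 (WithLp.toLp 2 (0, 1)) = u0) (e : E (k + m + 1)) (he : (inner ℝ e u0 : ℝ) ≠ 0) :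
    ∃ (x : E k) (y : E m), e = (inner ℝ e u0 : ℝ) • T1 (WithLp.toLp 2
      (T3 (WithLp.toLp 2 (x, y)), (1:ℝ))) := by
  set τ : ℝ := inner ℝ e u0 with hτ
  set f : E (k + m) := (T1.symm e).fst with hf
  have h1 : (T1.symm e).snd = τ := by
    have e1 : e = T1 (T1.symm e) := (T1.apply_symm_apply e).symm
    rw [hτ, ← hT1]
    conv_rhs => rw [e1]
    rw [LinearIsometryEquiv.inner_map_map, WithLp.prod_inner_apply]
    simp
  refine ⟨(T3.symm (τ⁻¹ • f)).fst, (T3.symm (τ⁻¹ • f)).snd, ?_⟩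
  have h2 : (WithLp.toLp 2 ((T3.symm (τ⁻¹ • f)).fst, (T3.symm (τ⁻¹ • f)).snd) :
      WithLp 2 (E k × E m)) = T3.symm (τ⁻¹ • f) := rfl
  rw [h2, LinearIsometryEquiv.apply_symm_apply, ← map_smul]
  have h3 : τ • (WithLp.toLp 2 (τ⁻¹ • f, (1:ℝ)) : WithLp 2 (E (k + m) × ℝ))
      = WithLp.toLp 2 (τ • τ⁻¹ • f, τ * 1) := rfl
  rw [h3, smul_smul, mul_inv_cancel₀ he, one_smul, mul_one, ← h1, hf]
  have h4 : (WithLp.toLp 2 ((T1.symm e).fst, (T1.symm e).snd) : WithLp 2 (E (k + m) × ℝ))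
      = T1.symm e := rfl
  rw [h4, LinearIsometryEquiv.apply_symm_apply]

/-- The multiplicity function of a part of the family. -/
noncomputable def FF {n : ℕ} {ι : Type} (δ : ℝ) (e a : ι → E n) (s : Finset ι) (y : E n) : ℝ≥0∞ :=
  ∑ i ∈ s, (cyl δ (Icc (-(1 / 2)) (1 / 2)) (e i) (a i)).indicator (fun _ => (1:ℝ≥0∞)) y

theorem FF_univ {n : ℕ} {ι : Type} [Fintype ι] (δ : ℝ) (e a : ι → E n) (y : E n) :
    FF δ e a Finset.univ y = Fs δ (Icc (-(1 / 2)) (1 / 2)) e a y := rfl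

theorem FF_eq {n : ℕ} {ι : Type} (δ : ℝ) (e a : ι → E n) (s : Finset ι) (y : E n) :
    FF δ e a s y = Fs (ι := {i // i ∈ s}) δ (Icc (-(1 / 2)) (1 / 2)) (fun i => e i)
      (fun i => a i) y := by
  unfold FF Fs
  exact (Finset.sum_coe_sort s (fun i => (cyl δ (Icc (-(1 / 2)) (1 / 2)) (e i) (a i)).indicator
    (fun _ => (1:ℝ≥0∞)) y)).symm

theorem measurable_FF {n : ℕ} {ι : Type} (δ : ℝ) (e a : ι → E n) (s : Finset ι) :
    Measurable (FF δ e a s) := by
  apply Finset.measurable_fun_sum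
  intro i _
  exact measurable_const.indicator (measurableSet_cyl _ measurableSet_Icc _ _)

/-- A large part of the family with the good estimate. -/
theorem large_part {k m : ℕ} (hk : 1 ≤ k) {q ε : ℝ} (hq : 1 < q) (hε : 0 ≤ ε) (hLL : LW k q ε) :
    ∃ C : ℝ, 0 < C ∧ ∀ δ : ℝ, 0 < δ → δ < 1 → ∀ (ι : Type) [DecidableEq ι]
    (e a : ι → E (k + m + 1)) (s : Finset ι), s.Nonempty → (∀ i ∈ s, ‖e i‖ = 1) →
    (∀ i ∈ s, ∀ j ∈ s, i ≠ j → e i ≠ e j) → ∀ P : ℝ, 0 ≤ P →
    (∀ i ∈ s, ∑ j ∈ s.filter (fun j => j ≠ i), (δ / ‖e i - e j‖) ^ k ≤ P) →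
    ∃ t ⊆ s, t.Nonempty ∧ (s.card : ℝ) ≤ C * (1 + P) * t.card ∧
      ∫⁻ y, FF δ e a t y ^ q ≤
        ENNReal.ofReal (C * δ ^ (-ε) * (δ ^ (k + m) * (t.card : ℝ) ^ (q - 1 / (k : ℝ)))) := by
  classical
  set n : ℕ := k + m + 1 with hn
  have hn0 : (0:ℝ) < n := by rw [hn]; positivity
  set κ : ℝ := 1 / n with hκ
  have hκ0 : 0 < κ := by positivity
  obtain ⟨Cf, hCf, hfib⟩ := fibre (m := m) hk hq hε hLL hκ0
  obtain ⟨Cs, hCs, hsh⟩ := exists_shear k m
  obtain ⟨T3⟩ := exists_T3 k m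
  set Cb : ℝ := 2 * n * (4 * (Cs * 2 ^ k) + 6) with hCb
  have hCb0 : 0 < Cb := by positivity
  refine ⟨Cf + Cb, by positivity, ?_⟩
  intro δ hδ hδ1 ι _ e a s hs he hne P hP hPot
  -- the poles
  set pole : Fin n × Bool → E n := fun r =>
    if r.2 then EuclideanSpace.single r.1 (1:ℝ) else -EuclideanSpace.single r.1 (1:ℝ) with hpole
  have hpole1 : ∀ r, ‖pole r‖ = 1 := by
    intro r
    rw [hpole]
    simp only
    split_ifs
    · simp
    · simp
  have hexp : ∀ i ∈ s, ∃ r, κ ≤ (inner ℝ (e i) (pole r) : ℝ) := by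
    intro i hi
    obtain ⟨l, -, hl⟩ := Finset.exists_max_image (Finset.univ : Finset (Fin n))
      (fun l => |e i l|) ⟨⟨0, by omega⟩, Finset.mem_univ _⟩
    have h1 : ‖e i‖ ≤ n * |e i l| := norm_le_of_coord (e i) (fun r => hl r (Finset.mem_univ _))
    rw [he i hi] at h1
    have h2 : κ ≤ |e i l| := by
      rw [hκ, div_le_iff₀ hn0]
      linarith
    rcases le_total 0 (e i l) with h3 | h3
    · refine ⟨(l, true), ?_⟩
      rw [abs_of_nonneg h3] at h2
      simpa [hpole, EuclideanSpace.inner_single_right] using h2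
    · refine ⟨(l, false), ?_⟩
      rw [abs_of_nonpos h3] at h2
      simpa [hpole, EuclideanSpace.inner_single_right] using h2
  have hexp' : ∀ i, ∃ r, i ∈ s → κ ≤ (inner ℝ (e i) (pole r) : ℝ) := by
    intro i
    by_cases hi : i ∈ s
    · obtain ⟨r, hr⟩ := hexp i hi
      exact ⟨r, fun _ => hr⟩
    · exact ⟨(⟨0, by omega⟩, true), fun h => absurd h hi⟩
  choose pr hpr using hexp'
  obtain ⟨r0, hr0⟩ : ∃ r : Fin n × Bool, (s.card : ℝ) ≤ 2 * n * ((s.filter
      (fun i => pr i = r)).card : ℝ) := by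
    by_contra h
    push Not at h
    have h1 : ∑ r : Fin n × Bool, (2 * n * ((s.filter (fun i => pr i = r)).card : ℝ))
        < ∑ _r : Fin n × Bool, (s.card : ℝ) := by
      apply Finset.sum_lt_sum_of_nonempty ⟨(⟨0, by omega⟩, true), Finset.mem_univ _⟩
      intro r _
      exact h r
    rw [← Finset.mul_sum, ← Nat.cast_sum, Finset.sum_const, Finset.card_univ,
      ← Finset.card_eq_sum_card_fiberwise (fun _ _ => Finset.mem_coe.2 (Finset.mem_univ _)),
      Fintype.card_prod, Fintype.card_fin, Fintype.card_bool, nsmul_eq_mul] at h1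
    push_cast at h1
    have : (2:ℝ) * n * s.card = n * 2 * s.card := by ring
    linarith
  set s' : Finset ι := s.filter (fun i => pr i = r0) with hs'
  have hs's : s' ⊆ s := Finset.filter_subset _ _
  have hsc : (0:ℝ) < s.card := by exact_mod_cast hs.card_pos
  have hs'ne : s'.Nonempty := by
    rw [← Finset.card_pos]
    have : (0:ℝ) < s'.card := by
      by_contra h
      push Not at h
      nlinarith
    exact_mod_cast this
  set u0 : E n := pole r0 with hu0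
  obtain ⟨T1, hT1⟩ := exists_T1 (k + m) u0 (hpole1 r0)
  set τ : ι → ℝ := fun i => inner ℝ (e i) u0 with hτ
  have hτκ : ∀ i ∈ s', κ ≤ τ i := by
    intro i hi
    obtain ⟨h1, h2⟩ := Finset.mem_filter.1 hi
    have := hpr i h1
    rw [h2] at this
    exact this
  have hcoord : ∀ i, ∃ (x : E k) (y : E m), i ∈ s' → e i = τ i • T1 (WithLp.toLp 2
      (T3 (WithLp.toLp 2 (x, y)), (1:ℝ))) := by
    intro i
    by_cases hi : i ∈ s'
    · obtain ⟨x, y, h⟩ := exists_coord T1 T3 hT1 (e i) (hκ0.trans_le (hτκ i hi)).ne'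
      exact ⟨x, y, fun _ => h⟩
    · exact ⟨0, 0, fun h => absurd h hi⟩
  choose x y hxy using hcoord
  -- the shear
  obtain ⟨M, hM, hMs⟩ := hsh ι s' x y δ (2 ^ k * P) (fun i j => ‖e i - e j‖ / 2) hδ (by positivity)
    (by
      intro i hi j hj hji
      refine ⟨?_, ?_⟩
      · have : 0 < ‖e i - e j‖ := norm_pos_iff.2 (sub_ne_zero.2
          (hne i (hs's hi) j (hs's hj) (Ne.symm hji)))
        positivity
      · have h1 := dir_lip T1 (hκ0.trans_le (hτκ i hi)) (hκ0.trans_le (hτκ j hj)) (hxy i hi)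
          (hxy j hj) (he i (hs's hi)) (he j (hs's hj))
        have h2 : ‖T3 (WithLp.toLp 2 (x i, y i)) - T3 (WithLp.toLp 2 (x j, y j))‖
            ≤ ‖x i - x j‖ + ‖y i - y j‖ := by
          rw [← map_sub, LinearIsometryEquiv.norm_map]
          exact le_add (x i - x j) (y i - y j)
        linarith)
    (by
      intro i hi
      calc ∑ j ∈ s'.filter (fun j => j ≠ i), (δ / (‖e i - e j‖ / 2)) ^ k
          = 2 ^ k * ∑ j ∈ s'.filter (fun j => j ≠ i), (δ / ‖e i - e j‖) ^ k := by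
            rw [Finset.mul_sum]
            apply Finset.sum_congr rfl
            intro j _
            rw [← mul_pow]
            congr 1
            rw [div_div_eq_mul_div]
            ring
        _ ≤ 2 ^ k * ∑ j ∈ s.filter (fun j => j ≠ i), (δ / ‖e i - e j‖) ^ k := by
            gcongr
        _ ≤ _ := by
            gcongr
            exact hPot i (hs's hi))
  obtain ⟨t, hts', ht, htc, hti⟩ := indep s' hs'ne
    (fun i j => ‖(x i + act M (y i)) - (x j + act M (y j))‖ ≤ δ)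
    (fun i j h => by rwa [norm_sub_rev] at h) (D := Cs * (2 ^ k * P)) (by positivity) hMs
  have ht0 : (0:ℝ) < t.card := by exact_mod_cast ht.card_pos
  refine ⟨t, hts'.trans hs's, ht, ?_, ?_⟩
  · calc (s.card : ℝ) ≤ 2 * n * s'.card := hr0
      _ ≤ 2 * n * ((4 * (Cs * (2 ^ k * P)) + 6) * t.card) := by gcongr
      _ ≤ Cb * (1 + P) * t.card := by
          have h1 : 4 * (Cs * (2 ^ k * P)) + 6 ≤ (4 * (Cs * 2 ^ k) + 6) * (1 + P) := by
            have : 0 ≤ 4 * (Cs * 2 ^ k) := by positivity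
            nlinarith
          calc 2 * n * ((4 * (Cs * (2 ^ k * P)) + 6) * t.card)
              ≤ 2 * n * (((4 * (Cs * 2 ^ k) + 6) * (1 + P)) * t.card) := by gcongr
            _ = _ := by rw [hCb]; ring
      _ ≤ _ := by
          gcongr
          linarith
  · have : Nonempty {i // i ∈ t} := by
      obtain ⟨i, hi⟩ := ht
      exact ⟨⟨i, hi⟩⟩
    have h1 := hfib T1 T3 M hM δ hδ hδ1 {i // i ∈ t} (fun i => e i) (fun i => a i) (fun i => x i)
      (fun i => y i) (fun i => τ i) (fun i => hτκ i (hts' i.2)) (fun i => hxy i (hts' i.2))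
      (fun i => he i (hs's (hts' i.2))) (fun i j hij => by
        have := hti i i.2 j j.2 (fun h => hij (Subtype.ext h))
        push Not at this
        exact this)
    rw [Fintype.card_coe] at h1
    simp_rw [FF_eq]
    refine h1.trans ?_
    apply ENNReal.ofReal_le_ofReal
    apply mul_le_mul_of_nonneg_right _ (by positivity)
    apply mul_le_mul_of_nonneg_right (by linarith)
    positivity

/-- The estimate for all families. -/
theorem all_families {k m : ℕ} (hk : 1 ≤ k) {q ε : ℝ} (hq : 1 < q) (hε : 0 ≤ ε)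
    (hLL : LW k q ε) : ∃ C : ℝ, 0 < C ∧ ∀ δ : ℝ, 0 < δ → δ < 1 → ∀ (ι : Type) [Fintype ι]
    [DecidableEq ι] (e a : ι → E (k + m + 1)), (∀ i, ‖e i‖ = 1) → (∀ i j, i ≠ j → e i ≠ e j) →
    ∀ P : ℝ, 0 ≤ P →
    (∀ i, ∑ j ∈ Finset.univ.filter (fun j => j ≠ i), (δ / ‖e i - e j‖) ^ k ≤ P) →
    (∫⁻ y, Fs δ (Icc (-(1 / 2)) (1 / 2)) e a y ^ q) ^ (1 / q) ≤
      ENNReal.ofReal (C * (δ ^ (-ε) * δ ^ (k + m)) ^ (1 / q) * (1 + P) ^ (1 / (q * k)) *
        (Fintype.card ι : ℝ) ^ (1 - 1 / (q * k))) := by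
  obtain ⟨C, hC, h⟩ := large_part (m := m) hk hq hε hLL
  have hk0 : (0:ℝ) < k := by exact_mod_cast hk
  have hk1 : (1:ℝ) ≤ k := by exact_mod_cast hk
  have hq0 : 0 < q := by linarith
  set θ : ℝ := 1 - 1 / (q * k) with hθ
  have hqk : 1 < q * k := by nlinarith
  have hθ0 : 0 < θ := by
    rw [hθ]
    have : 1 / (q * k) < 1 := by rw [div_lt_one (by linarith)]; exact hqk
    linarith
  have hθ1 : θ < 1 := by
    rw [hθ]
    have : 0 < 1 / (q * (k:ℝ)) := by positivity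
    linarith
  have hqθ : q * θ = q - 1 / k := by
    rw [hθ]; field_simp
  have h1θ : 1 - θ = 1 / (q * k) := by rw [hθ]; ring
  refine ⟨C ^ (1 / q) / θ * C ^ (1 - θ), by positivity, ?_⟩
  intro δ hδ hδ1 ι _ _ e a he hne P hP hPot
  have key := iter (ι := ι) hθ0 hθ1 (B := (C * δ ^ (-ε) * δ ^ (k + m)) ^ (1 / q))
    (K := C * (1 + P)) (by positivity) (fun s => (∫⁻ y, FF δ e a s y ^ q) ^ (1 / q)) (by
      simp only [FF, Finset.sum_empty, ENNReal.zero_rpow_of_pos hq0, lintegral_zero]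
      rw [ENNReal.zero_rpow_of_pos (by positivity)]) (by
      intro s t hst
      have e1 : ∀ y, FF δ e a (s ∪ t) y = FF δ e a s y + FF δ e a t y := fun y =>
        Finset.sum_union hst
      simp only [e1]
      exact ENNReal.lintegral_Lp_add_le (measurable_FF δ e a s).aemeasurable
        (measurable_FF δ e a t).aemeasurable hq.le) (by
      intro s hs
      obtain ⟨t, ht1, ht2, ht3, ht4⟩ := h δ hδ hδ1 ι e a s hs (fun i _ => he i)
        (fun i _ j _ hij => hne i j hij) P hP (fun i _ => by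
          refine le_trans ?_ (hPot i)
          apply Finset.sum_le_sum_of_subset_of_nonneg
          · exact Finset.filter_subset_filter _ (Finset.subset_univ _)
          · intro j _ _
            positivity)
      refine ⟨t, ht1, ht2, ht3, ?_⟩
      refine (ENNReal.rpow_le_rpow ht4 (by positivity)).trans (le_of_eq ?_)
      have hn : (0:ℝ) ≤ t.card := Nat.cast_nonneg _
      rw [ENNReal.ofReal_rpow_of_nonneg (by positivity) (by positivity)]
      congr 1
      rw [← mul_assoc, Real.mul_rpow (by positivity) (by positivity), ← Real.rpow_mul hn, ← hqθ]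
      congr 2
      field_simp) Finset.univ
  simp only [FF_univ, Finset.card_univ] at key
  refine key.trans (le_of_eq ?_)
  congr 1
  rw [mul_assoc C, Real.mul_rpow hC.le (by positivity), Real.mul_rpow hC.le (by positivity), ← h1θ]
  ring

end Pool.Agent.Helper30.Lo
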