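import Pool.Agent.Helper30.Lo.Prob

set_option autoImplicit false
set_option linter.unusedSectionVars false

/-!
The estimate of the problem for tubes of comparable radius, length and separation.
-/

open MeasureTheory Set Filter Topology ENNReal NNReal Metric

namespace Pool.Agent.Helper30.Lo

open Pool.Agent.H742R2.Kk Pool.Agent.W767.Kc Pool.Agent.K3h46.TMC Pool.Agent.Helper37.Kp

theorem Fs_mono {n : ℕ} {ι : Type} [Fintype ι] {ρ ρ' : ℝ} (h : ρ ≤ ρ') {S S' : Set ℝ}
    (hS : S ⊆ S') (e p : ι → E n) (y : E n) : Fs ρ S e p y ≤ Fs ρ' S' e p y := by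
  unfold Fs
  apply Finset.sum_le_sum
  intro i _
  by_cases hy : y ∈ cyl ρ S (e i) (p i)
  · have hy' : y ∈ cyl ρ' S' (e i) (p i) := ⟨hS hy.1, hy.2.trans h⟩
    rw [indicator_of_mem hy, indicator_of_mem hy']
  · rw [indicator_of_notMem hy]
    exact zero_le

/-- Sums over the classes of a colouring. -/
theorem by_classes {n : ℕ} {ι : Type} [Fintype ι] [Nonempty ι] {K : ℕ} (col : ι → Fin K) {ρ : ℝ}
    {S : Set ℝ} (hS : MeasurableSet S) (e p : ι → E n) {q θ B J : ℝ} (hq : 1 ≤ q) (hθ : 0 < θ)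
    (hθ1 : θ < 1) (hB : 0 ≤ B) (hJ : (K : ℝ) ≤ J)
    (h : ∀ a : Fin K, (∫⁻ y, Fs (ι := {i // col i = a}) ρ S (fun i => e i) (fun i => p i) y ^ q)
      ^ (1 / q) ≤ ENNReal.ofReal (B * (Fintype.card {i // col i = a} : ℝ) ^ θ)) :
    (∫⁻ y, Fs ρ S e p y ^ q) ^ (1 / q) ≤
      ENNReal.ofReal (B * (2 * (J ^ (1 - θ) * (Fintype.card ι : ℝ) ^ θ))) := by
  have hK0 : 0 < K := by
    obtain ⟨i⟩ := ‹Nonempty ι›
    exact (Nat.zero_le _).trans_lt (col i).isLt
  have hJ0 : 0 < J := lt_of_lt_of_le (Nat.cast_pos.2 hK0) hJ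
  set G : Fin K → E n → ℝ≥0∞ := fun a => Fs (ι := {i // col i = a}) ρ S (fun i => e i)
    (fun i => p i) with hG
  have hGm : ∀ a, Measurable (G a) := fun a => measurable_Fs _ hS _ _
  set m : Fin K → ℝ := fun a => (Fintype.card {i // col i = a} : ℝ) with hm
  have hsumG : ∀ y, Fs ρ S e p y = ∑ a, G a y := by
    intro y
    simp only [hG]
    unfold Fs
    exact (Fintype.sum_fiberwise col (fun i => (cyl ρ S (e i) (p i)).indicator
      (fun _ => (1:ℝ≥0∞)) y)).symm
  have hsumn : ∑ a, m a = Fintype.card ι := by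
    have h1 := Fintype.sum_fiberwise col (fun _ => (1:ℝ))
    simp only [Finset.sum_const, Finset.card_univ, nsmul_eq_mul, mul_one] at h1
    exact h1
  have hN0 : (0:ℝ) < Fintype.card ι := Nat.cast_pos.2 Fintype.card_pos
  have hsr := Pool.Agent.H810R3.Tub.sum_rpow_le (Finset.univ : Finset (Fin K)) m
    (fun a _ => Nat.cast_nonneg _) hsumn hN0 (J := J) (by
      rw [Finset.card_univ, Fintype.card_fin]
      exact hJ) hJ0 (θ := θ) hθ hθ1
  simp_rw [hsumG]
  refine (minkowski hq Finset.univ G hGm).trans ?_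
  calc ∑ a, (∫⁻ y, G a y ^ q) ^ (1 / q) ≤ ∑ a, ENNReal.ofReal (B * m a ^ θ) :=
        Finset.sum_le_sum (fun a _ => h a)
    _ = ENNReal.ofReal (B * ∑ a, m a ^ θ) := by
        rw [Finset.mul_sum, ENNReal.ofReal_sum_of_nonneg]
        intro a _
        exact mul_nonneg hB (Real.rpow_nonneg (Nat.cast_nonneg _) _)
    _ ≤ _ := ENNReal.ofReal_le_ofReal (mul_le_mul_of_nonneg_left hsr hB)

theorem Fs_empty {n : ℕ} {ι : Type} [Fintype ι] [IsEmpty ι] (ρ : ℝ) (S : Set ℝ) (e p : ι → E n)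
    (y : E n) : Fs ρ S e p y = 0 := by
  simp [Fs]

/-- The estimate of the problem in dimension `k + 1`, for tubes of radius `δ / 2`, with the loss
`δ ^ (-ε)`. -/
def LW (k : ℕ) (Q ε : ℝ) : Prop := ∃ C : ℝ, 0 < C ∧
  ∀ δ : ℝ, 0 < δ → δ < 1 → ∀ (ι : Type) [Fintype ι] (e a : ι → E (k + 1)),
      (∀ i, ‖e i‖ = 1) → (∀ i j, i ≠ j → δ ≤ ‖e i - e j‖) →
      ∫⁻ y, Fs (δ / 2) (Icc (-(1 / 2)) (1 / 2)) e a y ^ Q ≤
        ENNReal.ofReal (C * δ ^ (-ε) * (δ ^ k * (Fintype.card ι : ℝ) ^ (Q - 1 / (k : ℝ))))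

/-- The estimate of the problem for tubes of radius `K δ` and length `2 L` with `c δ`-separated
directions. -/
theorem model {k : ℕ} (hk : 1 ≤ k) {q ε : ℝ} (hq : 1 < q) (hε : 0 ≤ ε) (hLL : LW k q ε)
    {K L c : ℝ} (hK : 0 < K)
    (hL : 0 < L) (hc : 0 < c) (hc1 : c ≤ 1) : ∃ C : ℝ, 0 < C ∧ ∀ δ : ℝ, 0 < δ → δ < 1 →
    ∀ (ι : Type) [Fintype ι] [Nonempty ι] (e p : ι → E (k + 1)), (∀ i, ‖e i‖ = 1) →
    (∀ i j, i ≠ j → c * δ ≤ ‖e i - e j‖) →
    ∫⁻ y, Fs (K * δ) (Icc (-L) L) e p y ^ q ≤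
      ENNReal.ofReal (C * δ ^ (-ε) * (δ ^ k * (Fintype.card ι : ℝ) ^ (q - 1 / (k : ℝ)))) := by
  have hk0 : (0:ℝ) < k := by exact_mod_cast hk
  have hq0 : 0 < q := by linarith
  obtain ⟨C0, hC0, hLL⟩ := hLL
  obtain ⟨C1, hC1, hpack⟩ := cap_packing k
  have hk1 : (1:ℝ) ≤ k := by exact_mod_cast hk
  set θ : ℝ := 1 - 1 / (q * k) with hθ
  have hqk : 1 < q * k := by nlinarith
  have hθ0 : 0 < θ := by
    rw [hθ]
    have : 1 / (q * k) < 1 := by rw [div_lt_one (by linarith)]; exact hqk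
    linarith
  have hθ1 : θ < 1 := by
    rw [hθ]
    have : 0 < 1 / (q * (k:ℝ)) := by positivity
    linarith
  have hqθ : q * θ = q - 1 / k := by
    rw [hθ]; field_simp
  set K3 : ℝ := max (K / L) c with hK3
  have hK30 : 0 < K3 := lt_of_lt_of_le hc (le_max_right _ _)
  set J0 : ℝ := C1 * ((c + K3) / c) ^ k + 1 with hJ0
  have hJ00 : 0 < J0 := by positivity
  set J1 : ℝ := C1 * ((c + 2 * K3) / c) ^ k with hJ1
  have hJ10 : 0 < J1 := by positivity
  obtain ⟨Ca, hCa⟩ : ∃ x : ℝ,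
    x = (2 * L) ^ (k + 1) * ((C0 * K3 ^ (-ε) * K3 ^ k) * (2 * J0 ^ (1 - θ)) ^ q) := ⟨_, rfl⟩
  obtain ⟨Cb, hCb⟩ : ∃ x : ℝ, x = J1 ^ (1 / (k:ℝ)) * (2 * L * (2 * K) ^ k) := ⟨_, rfl⟩
  have hCa0 : 0 < Ca := by rw [hCa]; positivity
  have hCb0 : 0 < Cb := by rw [hCb]; positivity
  refine ⟨Ca + Cb, by positivity, ?_⟩
  intro δ hδ hδ1 ι _ _ e p he hsep
  classical
  have hN0 : (0:ℝ) < Fintype.card ι := Nat.cast_pos.2 Fintype.card_pos
  set N : ℝ := (Fintype.card ι : ℝ) with hN
  set η : ℝ := K3 * δ with hη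
  have hη0 : 0 < η := by positivity
  have hδε : 1 ≤ δ ^ (-ε) := Real.one_le_rpow_of_pos_of_le_one_of_nonpos hδ hδ1.le (by linarith)
  by_cases hη1 : η < 1
  · -- colouring
    obtain ⟨col, hcol⟩ := greedy_colour (fun i j => ‖e i - e j‖ < η)
      (fun i j h => by rwa [norm_sub_rev] at h) (⌊C1 * ((c + K3) / c) ^ k⌋₊ + 1) (Nat.succ_pos _) (by
        intro i
        apply Nat.lt_succ_of_le
        apply Nat.le_floor
        refine (hpack (c * δ) η (by positivity) (by nlinarith) hη0.le ι _ e (e i) (he i)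
          (fun j _ => he j) (fun j _ k _ hjk => hsep j k hjk) ?_).trans ?_
        · intro j hj
          have := (Finset.mem_filter.1 hj).2.2
          rw [norm_sub_rev]
          exact this.le
        · have : (c * δ + η) / (c * δ) = (c + K3) / c := by
            rw [hη]; field_simp
          rw [this])
    have hKJ : ((⌊C1 * ((c + K3) / c) ^ k⌋₊ + 1 : ℕ) : ℝ) ≤ J0 := by
      push_cast
      have := Nat.floor_le (show 0 ≤ C1 * ((c + K3) / c) ^ k by positivity)
      linarith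
    have h1 := by_classes col (measurableSet_Icc (a := (-(1 / 2) : ℝ)) (b := 1 / 2)) e
      (fun i => (2 * L)⁻¹ • p i) (ρ := η / 2) (q := q) (θ := θ)
      (B := (C0 * η ^ (-ε) * η ^ k) ^ (1 / q)) (J := J0)
      hq.le hθ0 hθ1 (by positivity) hKJ (by
        intro a
        rcases isEmpty_or_nonempty {i // col i = a} with hι | hι
        · simp only [Fs_empty, ENNReal.zero_rpow_of_pos hq0, lintegral_zero]
          rw [ENNReal.zero_rpow_of_pos (by positivity)]
          exact zero_le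
        have h1 := hLL η hη0 hη1 {i // col i = a} (fun i => e i) (fun i => (2 * L)⁻¹ • p i)
          (fun i => he i) (by
            intro i j hij
            by_contra hcon
            push Not at hcon
            exact hcol i j (fun h => hij (Subtype.ext h)) hcon (i.2.trans j.2.symm))
        have hn : (0:ℝ) ≤ (Fintype.card {i // col i = a} : ℝ) := Nat.cast_nonneg _
        refine (ENNReal.rpow_le_rpow h1 (by positivity)).trans (le_of_eq ?_)
        rw [ENNReal.ofReal_rpow_of_nonneg (by positivity) (by positivity)]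
        congr 1
        rw [← mul_assoc, Real.mul_rpow (by positivity) (by positivity), ← Real.rpow_mul hn, ← hqθ]
        congr 2
        field_simp)
    have h2 := ENNReal.rpow_le_rpow h1 hq0.le
    rw [← ENNReal.rpow_mul, one_div_mul_cancel hq0.ne', ENNReal.rpow_one,
      ENNReal.ofReal_rpow_of_nonneg (by positivity) hq0.le] at h2
    have h3 := lintegral_Fs_smul (ρ := K * δ / (2 * L)) (q := q) (show (0:ℝ) < 2 * L by positivity)
      (S := Icc (-(1 / 2)) (1 / 2)) (S' := Icc (-L) L) (by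
        intro s
        rw [mem_Icc, mem_Icc]
        constructor
        · rintro ⟨h3, h4⟩; constructor <;> nlinarith
        · rintro ⟨h3, h4⟩; constructor <;> nlinarith) measurableSet_Icc e
      (fun i => (2 * L)⁻¹ • p i)
    have e1 : 2 * L * (K * δ / (2 * L)) = K * δ := by field_simp
    have e2 : (fun i => (2 * L) • (2 * L)⁻¹ • p i) = p := by
      funext i
      rw [smul_smul, mul_inv_cancel₀ (by positivity), one_smul]
    rw [e1, e2] at h3
    rw [h3]
    have hρη : K * δ / (2 * L) ≤ η / 2 := by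
      have h4 : K / L ≤ K3 := le_max_left _ _
      have h5 : K / L * δ ≤ K3 * δ := by gcongr
      rw [hη]
      calc K * δ / (2 * L) = K / L * δ / 2 := by field_simp
        _ ≤ _ := by linarith
    calc ENNReal.ofReal ((2 * L) ^ (k + 1)) *
          ∫⁻ y, Fs (K * δ / (2 * L)) (Icc (-(1 / 2)) (1 / 2)) e (fun i => (2 * L)⁻¹ • p i) y ^ q
        ≤ ENNReal.ofReal ((2 * L) ^ (k + 1)) *
          ∫⁻ y, Fs (η / 2) (Icc (-(1 / 2)) (1 / 2)) e (fun i => (2 * L)⁻¹ • p i) y ^ q := by
          gcongr with y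
          exact Fs_mono hρη subset_rfl _ _ _
      _ ≤ ENNReal.ofReal ((2 * L) ^ (k + 1)) * ENNReal.ofReal
          (((C0 * η ^ (-ε) * η ^ k) ^ (1 / q) * (2 * (J0 ^ (1 - θ) * N ^ θ))) ^ q) := by gcongr
      _ = ENNReal.ofReal (Ca * δ ^ (-ε) * (δ ^ k * N ^ (q - 1 / (k:ℝ)))) := by
          rw [← ENNReal.ofReal_mul (by positivity)]
          congr 1
          have g1 : 0 ≤ J0 ^ (1 - θ) := by positivity
          have g2 : 0 ≤ N ^ θ := by positivity
          have g3 : 0 ≤ C0 * η ^ (-ε) * η ^ k := by positivity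
          rw [Real.mul_rpow (by positivity) (by positivity), ← Real.rpow_mul g3,
            one_div_mul_cancel hq0.ne', Real.rpow_one, ← mul_assoc 2 (J0 ^ (1 - θ)),
            Real.mul_rpow (x := 2 * J0 ^ (1 - θ)) (by positivity) g2, ← Real.rpow_mul hN0.le,
            mul_comm θ q, hqθ, hη, mul_pow K3, Real.mul_rpow hK30.le hδ.le, hCa]
          ring
      _ ≤ ENNReal.ofReal ((Ca + Cb) * δ ^ (-ε) * (δ ^ k * N ^ (q - 1 / (k:ℝ)))) := by
          apply ENNReal.ofReal_le_ofReal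
          apply mul_le_mul_of_nonneg_right _ (by positivity)
          apply mul_le_mul_of_nonneg_right (by linarith)
          positivity
  · push Not at hη1
    have hcd : c * δ ≤ 1 := by nlinarith
    have hNle : N ≤ J1 := by
      obtain ⟨i0⟩ := ‹Nonempty ι›
      have h1 := hpack (c * δ) 2 (by positivity) hcd (by norm_num) ι Finset.univ e (e i0) (he i0)
        (fun i _ => he i) (fun i _ j _ hij => hsep i j hij) (fun i _ => by
          refine (norm_sub_le _ _).trans ?_
          rw [he i, he i0]; norm_num)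
      rw [Finset.card_univ] at h1
      refine h1.trans ?_
      rw [hJ1]
      gcongr C1 * ?_ ^ k
      rw [div_le_div_iff₀ (by positivity) hc]
      nlinarith
    have h2 := lintegral_Fs_le (p := p) (show 0 < K * δ by positivity) hL
      (measurableSet_Icc (a := -L) (b := L)) le_rfl he
    rw [← hN] at h2
    have h3 : ∀ y, Fs (K * δ) (Icc (-L) L) e p y ^ q
        ≤ ENNReal.ofReal (N ^ (q - 1)) * Fs (K * δ) (Icc (-L) L) e p y := by
      intro y
      have h3 : Fs (K * δ) (Icc (-L) L) e p y ≤ ENNReal.ofReal N := by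
        have := Fs_le (K * δ) (Icc (-L) L) e p y
        rw [hN, ENNReal.ofReal_natCast]
        exact this
      have e1 : q = (q - 1) + 1 := by ring
      conv_lhs => rw [e1]
      rw [ENNReal.rpow_add_of_nonneg _ _ (by linarith) (by norm_num), ENNReal.rpow_one,
        ← ENNReal.ofReal_rpow_of_nonneg hN0.le (by linarith)]
      gcongr
    calc ∫⁻ y, Fs (K * δ) (Icc (-L) L) e p y ^ q
        ≤ ∫⁻ y, ENNReal.ofReal (N ^ (q - 1)) * Fs (K * δ) (Icc (-L) L) e p y := lintegral_mono h3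
      _ = ENNReal.ofReal (N ^ (q - 1)) * ∫⁻ y, Fs (K * δ) (Icc (-L) L) e p y :=
          lintegral_const_mul' _ _ ENNReal.ofReal_ne_top
      _ ≤ ENNReal.ofReal (N ^ (q - 1)) * ENNReal.ofReal (N * (2 * L * (2 * (K * δ)) ^ k)) := by
          gcongr
      _ = ENNReal.ofReal (N ^ (1 / (k:ℝ)) * (2 * L * (2 * K) ^ k) *
            (δ ^ k * N ^ (q - 1 / (k:ℝ)))) := by
          rw [← ENNReal.ofReal_mul (by positivity)]
          congr 1
          have e1 : N ^ (q - 1) * N = N ^ (1 / (k:ℝ)) * N ^ (q - 1 / (k:ℝ)) := by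
            rw [← Real.rpow_add hN0]
            have h4 : N ^ (q - 1) * N = N ^ (q - 1 + 1) := by
              rw [Real.rpow_add hN0, Real.rpow_one]
            rw [h4]
            congr 1
            ring
          calc N ^ (q - 1) * (N * (2 * L * (2 * (K * δ)) ^ k))
              = (N ^ (q - 1) * N) * (2 * L * (2 * (K * δ)) ^ k) := by ring
            _ = _ := by
                rw [e1, ← mul_assoc 2 K, mul_pow (2 * K)]
                ring
      _ ≤ _ := by
          apply ENNReal.ofReal_le_ofReal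
          apply mul_le_mul_of_nonneg_right _ (by positivity)
          calc N ^ (1 / (k:ℝ)) * (2 * L * (2 * K) ^ k) ≤ Cb := by
                rw [hCb]
                gcongr
            _ ≤ (Ca + Cb) * 1 := by linarith
            _ ≤ _ := by gcongr

end Pool.Agent.Helper30.Lo
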