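import Pool.Agent.Helper30.Lo.Comb

set_option autoImplicit false
set_option linter.unusedSectionVars false

/-!
Random shears.
-/

open MeasureTheory Set Filter Topology ENNReal NNReal Metric

namespace Pool.Agent.Helper30.Lo

open Pool.Agent.H742R2.Kk

/-- The linear map given by a matrix. -/
noncomputable def act {k m : ℕ} (M : Fin k → Fin m → ℝ) : E m →ₗ[ℝ] E k :=
  Matrix.toEuclideanLin (Matrix.of M)

theorem act_apply {k m : ℕ} (M : Fin k → Fin m → ℝ) (w : E m) (r : Fin k) :
    act M w r = ∑ s, M r s * w s := by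
  simp [act, Matrix.toLpLin_apply, Matrix.mulVec, dotProduct]

/-- The unit cube of matrices. -/
def cube (k m : ℕ) : Set (Fin k → Fin m → ℝ) := {M | ∀ r s, M r s ∈ Icc (0:ℝ) 1}

theorem cube_eq (k m : ℕ) : cube k m = Set.pi univ (fun _ => Set.pi univ (fun _ => Icc (0:ℝ) 1)) := by
  ext M
  simp only [cube, mem_ofPred_eq, Set.mem_pi, mem_univ, forall_true_left]

theorem measurableSet_cube (k m : ℕ) : MeasurableSet (cube k m) := by
  rw [cube_eq]
  exact MeasurableSet.univ_pi (fun _ => MeasurableSet.univ_pi (fun _ => measurableSet_Icc))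

theorem volume_cube (k m : ℕ) : volume (cube k m) = 1 := by
  rw [cube_eq, volume_pi_pi]
  simp only [volume_pi_pi, Real.volume_Icc]
  simp

theorem coord_le {k : ℕ} (x : E k) (r : Fin k) : |x r| ≤ ‖x‖ := by
  rw [← Real.norm_eq_abs]
  exact PiLp.norm_apply_le x r

theorem norm_le_sum {k : ℕ} (x : E k) : ‖x‖ ≤ ∑ r, |x r| := by
  rw [EuclideanSpace.norm_eq]
  apply Real.sqrt_le_iff.2
  refine ⟨Finset.sum_nonneg (fun _ _ => abs_nonneg _), ?_⟩
  simp only [Real.norm_eq_abs]
  exact Finset.sum_sq_le_sq_sum_of_nonneg (fun _ _ => abs_nonneg _)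

theorem norm_le_of_coord {k : ℕ} (x : E k) {c : ℝ} (h : ∀ r, |x r| ≤ c) : ‖x‖ ≤ k * c := by
  refine (norm_le_sum x).trans ?_
  calc ∑ r, |x r| ≤ ∑ _r : Fin k, c := Finset.sum_le_sum (fun r _ => h r)
    _ = k * c := by rw [Finset.sum_const, Finset.card_univ, Fintype.card_fin, nsmul_eq_mul]

theorem norm_act_le {k m : ℕ} {M : Fin k → Fin m → ℝ} (hM : M ∈ cube k m) (w : E m) :
    ‖act M w‖ ≤ k * m * ‖w‖ := by
  rw [mul_assoc]
  apply norm_le_of_coord
  intro r
  rw [act_apply]
  refine (Finset.abs_sum_le_sum_abs _ _).trans ?_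
  calc ∑ s, |M r s * w s| ≤ ∑ _s : Fin m, ‖w‖ := by
        apply Finset.sum_le_sum
        intro s _
        rw [abs_mul]
        have h1 : |M r s| ≤ 1 := by
          rw [abs_of_nonneg (hM r s).1]
          exact (hM r s).2
        calc |M r s| * |w s| ≤ 1 * ‖w‖ := by
              gcongr
              exact coord_le w s
          _ = ‖w‖ := one_mul _
    _ = m * ‖w‖ := by rw [Finset.sum_const, Finset.card_univ, Fintype.card_fin, nsmul_eq_mul]

theorem vol_line (c ρ w : ℝ) (hw : w ≠ 0) :
    volume {x : ℝ | |c + x * w| ≤ ρ} ≤ ENNReal.ofReal (2 * ρ / |w|) := by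
  have h1 : {x : ℝ | |c + x * w| ≤ ρ} ⊆ closedBall (-c / w) (ρ / |w|) := by
    intro x hx
    rw [mem_closedBall, Real.dist_eq]
    have hw' : 0 < |w| := abs_pos.2 hw
    rw [le_div_iff₀ hw', ← abs_mul]
    have e1 : (x - -c / w) * w = c + x * w := by field_simp; ring
    rw [e1]
    exact hx
  refine (measure_mono h1).trans (le_of_eq ?_)
  rw [Real.volume_closedBall]
  congr 1
  ring

theorem slab {m : ℕ} (w : Fin (m + 1) → ℝ) (s0 : Fin (m + 1)) (hw : w s0 ≠ 0) (c ρ : ℝ) :
    volume {μ : Fin (m + 1) → ℝ | (∀ s, μ s ∈ Icc (0:ℝ) 1) ∧ |c + ∑ s, μ s * w s| ≤ ρ} ≤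
      ENNReal.ofReal (2 * ρ / |w s0|) := by
  set A : Set (Fin (m + 1) → ℝ) :=
    {μ | (∀ s, μ s ∈ Icc (0:ℝ) 1) ∧ |c + ∑ s, μ s * w s| ≤ ρ} with hA
  have hAm : MeasurableSet A := by
    have : A = Set.pi univ (fun _ => Icc (0:ℝ) 1) ∩
        {μ : Fin (m + 1) → ℝ | |c + ∑ s, μ s * w s| ≤ ρ} := by
      ext μ
      simp only [hA, mem_ofPred_eq, Set.mem_inter_iff, Set.mem_pi, mem_univ, forall_true_left]
    rw [this]
    apply (MeasurableSet.univ_pi (fun _ => measurableSet_Icc)).inter
    have hc : Continuous (fun μ : Fin (m + 1) → ℝ => |c + ∑ s, μ s * w s|) := by fun_prop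
    exact (isClosed_le hc continuous_const).measurableSet
  have he := (volume_preserving_piFinSuccAbove (fun _ : Fin (m + 1) => ℝ) s0).symm
  set e := (MeasurableEquiv.piFinSuccAbove (fun _ : Fin (m + 1) => ℝ) s0) with hedef
  rw [← he.measure_preimage hAm.nullMeasurableSet]
  have hpm : MeasurableSet (e.symm ⁻¹' A) := e.symm.measurable hAm
  rw [Measure.volume_eq_prod, Measure.prod_apply_symm hpm]
  set Q : Set (Fin m → ℝ) := Set.pi univ (fun _ => Icc (0:ℝ) 1) with hQ
  have hQm : MeasurableSet Q := MeasurableSet.univ_pi (fun _ => measurableSet_Icc)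
  calc ∫⁻ y, volume ((fun x => (x, y)) ⁻¹' (e.symm ⁻¹' A))
      ≤ ∫⁻ y, Q.indicator (fun _ => ENNReal.ofReal (2 * ρ / |w s0|)) y := by
        apply lintegral_mono
        intro y
        by_cases hy : y ∈ Q
        · rw [indicator_of_mem hy]
          refine (measure_mono ?_).trans (vol_line (c + ∑ s, y s * w (s0.succAbove s)) ρ (w s0) hw)
          intro x hx
          have hx2 : |c + ∑ s, (e.symm (x, y)) s * w s| ≤ ρ := hx.2
          rw [Fin.sum_univ_succAbove _ s0] at hx2
          have e1 : (e.symm (x, y)) s0 = x := by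
            rw [hedef]
            exact Fin.insertNth_apply_same (α := fun _ => ℝ) s0 x y
          have e2 : ∀ s, (e.symm (x, y)) (s0.succAbove s) = y s := by
            intro s
            rw [hedef]
            exact Fin.insertNth_apply_succAbove (α := fun _ => ℝ) s0 x y s
          simp only [e1, e2] at hx2
          show |_| ≤ ρ
          refine le_trans (le_of_eq ?_) hx2
          congr 1
          ring
        · rw [indicator_of_notMem hy]
          have : (fun x => (x, y)) ⁻¹' (e.symm ⁻¹' A) = ∅ := by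
            rw [Set.eq_empty_iff_forall_notMem]
            intro x hx
            apply hy
            rw [hQ, Set.mem_univ_pi]
            intro s
            have h1 : (e.symm (x, y)) (s0.succAbove s) ∈ Icc (0:ℝ) 1 := hx.1 (s0.succAbove s)
            have e2 : (e.symm (x, y)) (s0.succAbove s) = y s := by
              rw [hedef]
              exact Fin.insertNth_apply_succAbove (α := fun _ => ℝ) s0 x y s
            rwa [e2] at h1
          show volume ((fun x => (x, y)) ⁻¹' (e.symm ⁻¹' A)) ≤ 0
          rw [this]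
          simp
    _ = ENNReal.ofReal (2 * ρ / |w s0|) * volume Q := by
        rw [lintegral_indicator hQm, setLIntegral_const]
    _ = _ := by
        rw [hQ, volume_pi_pi]
        simp [Real.volume_Icc]

/-- The measure of the shears for which a given vector becomes small. -/
theorem shear_prob (k m : ℕ) : ∃ C : ℝ, 0 < C ∧ ∀ (x : E k) (y : E m) (δ W : ℝ), 0 < δ → 0 < W →
    W ≤ ‖x‖ + ‖y‖ →
    volume {M | M ∈ cube k m ∧ ‖x + act M y‖ ≤ δ} ≤ ENNReal.ofReal (C * (δ / W) ^ k) := by
  set a : ℝ := k * m + 1 with ha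
  have ha1 : 1 ≤ a := by
    rw [ha]
    have : (0:ℝ) ≤ k * m := by positivity
    linarith
  set B : ℝ := 4 + 2 * m * (2 * a + 1) with hB
  have hB4 : 4 ≤ B := by
    rw [hB]
    have : (0:ℝ) ≤ 2 * m * (2 * a + 1) := by positivity
    linarith
  refine ⟨B ^ k, by positivity, ?_⟩
  intro x y δ W hδ hW hWxy
  rw [← mul_pow]
  have hle1 : volume {M | M ∈ cube k m ∧ ‖x + act M y‖ ≤ δ} ≤ 1 := by
    rw [← volume_cube k m]
    exact measure_mono (fun M hM => hM.1)
  by_cases hc : 2 * a * ‖y‖ ≤ ‖x‖
  · by_cases hx : ‖x‖ ≤ 2 * δ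
    · refine hle1.trans ?_
      rw [← ENNReal.ofReal_one]
      apply ENNReal.ofReal_le_ofReal
      apply one_le_pow₀
      rw [mul_div_assoc', le_div_iff₀ hW, one_mul]
      have h1 : ‖y‖ ≤ ‖x‖ := by nlinarith [norm_nonneg y]
      nlinarith
    · push Not at hx
      have : {M | M ∈ cube k m ∧ ‖x + act M y‖ ≤ δ} = ∅ := by
        rw [Set.eq_empty_iff_forall_notMem]
        rintro M ⟨hM, h⟩
        have h1 := norm_act_le hM y
        have h2 : ‖x‖ ≤ ‖x + act M y‖ + ‖act M y‖ := by
          have := norm_sub_le (x + act M y) (act M y)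
          rwa [add_sub_cancel_right] at this
        have h3 : (k:ℝ) * m * ‖y‖ ≤ a * ‖y‖ := by
          gcongr
          rw [ha]
          linarith
        linarith
      rw [this, measure_empty]
      exact zero_le
  · push Not at hc
    have hy : 0 < ‖y‖ := by
      by_contra h
      have h1 : ‖y‖ = 0 := le_antisymm (not_lt.1 h) (norm_nonneg _)
      rw [h1] at hc
      linarith [norm_nonneg x]
    cases m with
    | zero =>
      exfalso
      have : y = 0 := Subsingleton.elim _ _
      rw [this, norm_zero] at hy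
      exact lt_irrefl _ hy
    | succ m' =>
      obtain ⟨s0, -, hs0⟩ := Finset.exists_max_image (Finset.univ : Finset (Fin (m' + 1)))
        (fun s => |y s|) ⟨0, Finset.mem_univ _⟩
      have h1 : ‖y‖ ≤ ((m' + 1 : ℕ) : ℝ) * |y s0| := norm_le_of_coord y (fun s => hs0 s (Finset.mem_univ _))
      have hm0 : (0:ℝ) < ((m' + 1 : ℕ) : ℝ) := by positivity
      have hys : 0 < |y s0| := by
        by_contra h
        push Not at h
        nlinarith
      have h2 : {M | M ∈ cube k (m' + 1) ∧ ‖x + act M y‖ ≤ δ} ⊆ Set.pi univ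
          (fun r => {μ : Fin (m' + 1) → ℝ | (∀ s, μ s ∈ Icc (0:ℝ) 1) ∧
            |x r + ∑ s, μ s * y s| ≤ δ}) := by
        rintro M ⟨hM, h⟩
        rw [Set.mem_univ_pi]
        intro r
        refine ⟨hM r, ?_⟩
        have h3 := coord_le (x + act M y) r
        have e1 : (x + act M y) r = x r + ∑ s, M r s * y s := by
          rw [PiLp.add_apply, act_apply]
        rw [e1] at h3
        exact h3.trans h
      refine (measure_mono h2).trans ?_
      rw [volume_pi_pi]
      calc ∏ r, volume {μ : Fin (m' + 1) → ℝ | (∀ s, μ s ∈ Icc (0:ℝ) 1) ∧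
            |x r + ∑ s, μ s * y s| ≤ δ}
          ≤ ∏ _r : Fin k, ENNReal.ofReal (2 * δ / |y s0|) :=
            Finset.prod_le_prod' (fun r _ => slab _ s0 (abs_pos.1 hys) _ _)
        _ = ENNReal.ofReal ((2 * δ / |y s0|) ^ k) := by
            rw [Finset.prod_const, Finset.card_univ, Fintype.card_fin, ENNReal.ofReal_pow]
            positivity
        _ ≤ _ := by
            apply ENNReal.ofReal_le_ofReal
            apply pow_le_pow_left₀ (by positivity)
            rw [mul_div_assoc', div_le_div_iff₀ hys hW]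
            have h3 : W ≤ (2 * a + 1) * (((m' + 1 : ℕ) : ℝ) * |y s0|) := by
              calc W ≤ (2 * a + 1) * ‖y‖ := by linarith
                _ ≤ _ := by gcongr
            have h4 : 0 ≤ 4 * δ * |y s0| := by positivity
            calc 2 * δ * W ≤ 2 * δ * ((2 * a + 1) * (((m' + 1 : ℕ) : ℝ) * |y s0|)) := by gcongr
              _ ≤ 4 * δ * |y s0| + 2 * δ * ((2 * a + 1) * (((m' + 1 : ℕ) : ℝ) * |y s0|)) := by
                  linarith
              _ = _ := by rw [hB]; ring

/-- A shear with few conflicts. -/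
theorem exists_shear (k m : ℕ) : ∃ C : ℝ, 0 < C ∧ ∀ (ι : Type) [DecidableEq ι] (s : Finset ι)
    (x : ι → E k) (y : ι → E m) (δ P : ℝ) (W : ι → ι → ℝ), 0 < δ → 0 ≤ P →
    (∀ i ∈ s, ∀ j ∈ s, j ≠ i → 0 < W i j ∧ W i j ≤ ‖x i - x j‖ + ‖y i - y j‖) →
    (∀ i ∈ s, ∑ j ∈ s.filter (fun j => j ≠ i), (δ / W i j) ^ k ≤ P) →
    ∃ M ∈ cube k m, ∑ i ∈ s, ((s.filter
      (fun j => j ≠ i ∧ ‖(x i + act M (y i)) - (x j + act M (y j))‖ ≤ δ)).card : ℝ) ≤
        C * P * s.card := by
  classical
  obtain ⟨C, hC, h⟩ := shear_prob k m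
  refine ⟨C, hC, ?_⟩
  intro ι _ s x y δ P W hδ hP hW hPot
  set S : ι → ι → Set (Fin k → Fin m → ℝ) := fun i j =>
    {M | M ∈ cube k m ∧ ‖(x i - x j) + act M (y i - y j)‖ ≤ δ} with hS
  have hSm : ∀ i j, MeasurableSet (S i j) := by
    intro i j
    have hc : Continuous (fun M : Fin k → Fin m → ℝ => act M (y i - y j)) := by
      have e1 : (fun M : Fin k → Fin m → ℝ => act M (y i - y j))
          = fun M => WithLp.toLp 2 (fun r => ∑ s, M r s * (y i - y j) s) := by
        funext M
        ext r
        rw [act_apply]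
      rw [e1]
      apply (PiLp.continuous_toLp 2 _).comp
      fun_prop
    have hc2 : Continuous (fun M : Fin k → Fin m → ℝ => ‖(x i - x j) + act M (y i - y j)‖) :=
      continuous_norm.comp (continuous_const.add hc)
    have e2 : S i j = cube k m ∩ {M | ‖(x i - x j) + act M (y i - y j)‖ ≤ δ} := rfl
    rw [e2]
    exact (measurableSet_cube k m).inter (isClosed_le hc2 continuous_const).measurableSet
  set f : (Fin k → Fin m → ℝ) → ℝ≥0∞ := fun M =>
    ∑ i ∈ s, ∑ j ∈ s.filter (fun j => j ≠ i), (S i j).indicator (fun _ => (1:ℝ≥0∞)) M with hf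
  have hfm : Measurable f := by
    apply Finset.measurable_fun_sum
    intro i _
    apply Finset.measurable_fun_sum
    intro j _
    exact measurable_const.indicator (hSm i j)
  have : IsProbabilityMeasure (volume.restrict (cube k m)) := ⟨by
    rw [Measure.restrict_apply_univ, volume_cube]⟩
  obtain ⟨M, hM1, hM2⟩ := exists_notMem_null_le_lintegral (μ := volume.restrict (cube k m))
    (N := (cube k m)ᶜ) (f := f) hfm.aemeasurable (by
      rw [Measure.restrict_apply (measurableSet_cube k m).compl]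
      simp)
  have hM : M ∈ cube k m := by
    by_contra hn
    exact hM1 hn
  refine ⟨M, hM, ?_⟩
  have h1 : ∫⁻ M in cube k m, f M ≤ ENNReal.ofReal (C * P * s.card) := by
    calc ∫⁻ M in cube k m, f M ≤ ∫⁻ M, f M := setLIntegral_le_lintegral _ _
      _ = ∑ i ∈ s, ∑ j ∈ s.filter (fun j => j ≠ i), volume (S i j) := by
          rw [hf, lintegral_finsetSum _ (fun i _ => Finset.measurable_fun_sum _
            (fun j _ => measurable_const.indicator (hSm i j)))]
          apply Finset.sum_congr rfl
          intro i _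
          rw [lintegral_finsetSum _ (fun j _ => measurable_const.indicator (hSm i j))]
          apply Finset.sum_congr rfl
          intro j _
          rw [lintegral_indicator (hSm i j), setLIntegral_const, one_mul]
      _ ≤ ∑ i ∈ s, ∑ j ∈ s.filter (fun j => j ≠ i), ENNReal.ofReal (C * (δ / W i j) ^ k) := by
          apply Finset.sum_le_sum
          intro i hi
          apply Finset.sum_le_sum
          intro j hj
          obtain ⟨hj1, hj2⟩ := Finset.mem_filter.1 hj
          obtain ⟨h2, h3⟩ := hW i hi j hj1 hj2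
          exact h (x i - x j) (y i - y j) δ (W i j) hδ h2 h3
      _ ≤ ∑ i ∈ s, ENNReal.ofReal (C * P) := by
          apply Finset.sum_le_sum
          intro i hi
          rw [← ENNReal.ofReal_sum_of_nonneg, ← Finset.mul_sum]
          · apply ENNReal.ofReal_le_ofReal
            gcongr
            exact hPot i hi
          · intro j hj
            obtain ⟨hj1, hj2⟩ := Finset.mem_filter.1 hj
            have := (hW i hi j hj1 hj2).1
            positivity
      _ = _ := by
          rw [Finset.sum_const, nsmul_eq_mul, mul_comm (C * P),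
            ENNReal.ofReal_mul (Nat.cast_nonneg _), ENNReal.ofReal_natCast]
  have h2 : f M = ENNReal.ofReal (∑ i ∈ s, ((s.filter
      (fun j => j ≠ i ∧ ‖(x i + act M (y i)) - (x j + act M (y j))‖ ≤ δ)).card : ℝ)) := by
    rw [ENNReal.ofReal_sum_of_nonneg (fun _ _ => Nat.cast_nonneg _), hf]
    apply Finset.sum_congr rfl
    intro i _
    rw [ENNReal.ofReal_natCast, Finset.card_eq_sum_ones, Nat.cast_sum, Finset.sum_filter,
      Finset.sum_filter]
    apply Finset.sum_congr rfl
    intro j _
    have e1 : (x i - x j) + act M (y i - y j) = (x i + act M (y i)) - (x j + act M (y j)) := by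
      rw [map_sub]; abel
    by_cases hji : j ≠ i
    · rw [if_pos hji]
      by_cases hc : ‖(x i + act M (y i)) - (x j + act M (y j))‖ ≤ δ
      · rw [if_pos ⟨hji, hc⟩, indicator_of_mem]
        · simp
        · exact ⟨hM, by rw [e1]; exact hc⟩
      · rw [if_neg (fun h => hc h.2), indicator_of_notMem]
        rintro ⟨-, h⟩
        rw [e1] at h
        exact hc h
    · rw [if_neg hji, if_neg (fun h => hji h.1)]
  rw [h2] at hM2
  exact (ENNReal.ofReal_le_ofReal_iff (by positivity)).1 (hM2.trans h1)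

end Pool.Agent.Helper30.Lo
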